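import Mathlib

/-!
Coding map of the non-autonomous quadratic Cantor set.

`γ : ℕ → ℝ` with `0 < γ k ≤ 1/8`.  `br b g y = ± √(1 - 2 g (1 - y))` are the two inverse branches
of `x ↦ (x² - 1)/(2 g) + 1`.
-/

open Filter Topology Set

namespace Pool.Agent.Helper59.EqMeas

/-- Inverse branch. -/
noncomputable def br (b : Bool) (g : ℝ) (y : ℝ) : ℝ :=
  (if b then (1 : ℝ) else -1) * √(1 - 2 * g * (1 - y))

lemma br_sq {b : Bool} {g y : ℝ} (hg0 : 0 < g) (hg : g ≤ 1 / 8) (hy : |y| ≤ 1) :
    (br b g y) ^ 2 = 1 - 2 * g * (1 - y) := by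
  have hy' := abs_le.1 hy
  unfold br
  rw [mul_pow, Real.sq_sqrt (by nlinarith)]
  cases b <;> simp

lemma abs_br_le_one {b : Bool} {g y : ℝ} (hg0 : 0 < g) (hg : g ≤ 1 / 8) (hy : |y| ≤ 1) :
    |br b g y| ≤ 1 := by
  have hy' := abs_le.1 hy
  have h := br_sq (b := b) hg0 hg hy
  rw [← sq_le_one_iff_abs_le_one, h]
  nlinarith

lemma br_true_pos {g y : ℝ} (hg0 : 0 < g) (hg : g ≤ 1 / 8) (hy : |y| ≤ 1) :
    1 / 2 < br true g y := by
  have hy' := abs_le.1 hy
  unfold br
  simp only [if_true, one_mul]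
  rw [Real.lt_sqrt (by norm_num)]
  nlinarith

lemma br_false_neg {g y : ℝ} : br false g y = - br true g y := by
  unfold br; simp

lemma br_not {b : Bool} {g y : ℝ} : br (!b) g y = - br b g y := by
  unfold br; cases b <;> simp

/-- Contraction of the branches. -/
lemma abs_br_sub_le {b : Bool} {g y z : ℝ} (hg0 : 0 < g) (hg : g ≤ 1 / 8)
    (hy : |y| ≤ 1) (hz : |z| ≤ 1) :
    |br b g y - br b g z| ≤ 2 * g * |y - z| := by
  have h1 := br_true_pos hg0 hg hy
  have h2 := br_true_pos hg0 hg hz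
  have key : |br true g y - br true g z| ≤ 2 * g * |y - z| := by
    have h3 := br_sq (b := true) hg0 hg hy
    have h4 := br_sq (b := true) hg0 hg hz
    have h5 : (br true g y - br true g z) * (br true g y + br true g z) = 2 * g * (y - z) := by
      ring_nf
      ring_nf at h3 h4
      linarith
    have h6 : |br true g y - br true g z| * (br true g y + br true g z) = 2 * g * |y - z| := by
      have := congrArg abs h5
      rw [abs_mul, abs_mul, abs_of_pos (by linarith : 0 < br true g y + br true g z),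
        abs_of_pos (by linarith : (0 : ℝ) < 2 * g)] at this
      exact this
    have h7 : 1 ≤ br true g y + br true g z := by linarith
    nlinarith [abs_nonneg (br true g y - br true g z)]
  cases b
  · rw [br_false_neg, br_false_neg]
    have : -br true g y - -br true g z = -(br true g y - br true g z) := by ring
    rw [this, abs_neg]
    exact key
  · exact key

/-- Expansion of the branches from below. -/
lemma le_abs_br_sub {b : Bool} {g y z : ℝ} (hg0 : 0 < g) (hg : g ≤ 1 / 8)
    (hy : |y| ≤ 1) (hz : |z| ≤ 1) :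
    g * |y - z| ≤ |br b g y - br b g z| := by
  have h3 := br_sq (b := b) hg0 hg hy
  have h4 := br_sq (b := b) hg0 hg hz
  have h5 : (br b g y - br b g z) * (br b g y + br b g z) = 2 * g * (y - z) := by
    ring_nf
    ring_nf at h3 h4
    linarith
  have h6 : |br b g y - br b g z| * |br b g y + br b g z| = 2 * g * |y - z| := by
    have := congrArg abs h5
    rw [abs_mul, abs_mul, abs_of_pos (by linarith : (0 : ℝ) < 2 * g)] at this
    exact this
  have h7 : |br b g y + br b g z| ≤ 2 := by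
    calc |br b g y + br b g z| ≤ |br b g y| + |br b g z| := abs_add_le _ _
      _ ≤ 1 + 1 := add_le_add (abs_br_le_one hg0 hg hy) (abs_br_le_one hg0 hg hz)
      _ = 2 := by norm_num
  nlinarith [abs_nonneg (br b g y - br b g z)]

/-- Approximations of the coding map. -/
noncomputable def approx (γ : ℕ → ℝ) : ℕ → ℕ → (ℕ → Bool) → ℝ
  | 0, _, _ => 1
  | n + 1, s, ω => br (ω s) (γ s) (approx γ n (s + 1) ω)

/-- The coding map at level `s`. -/
noncomputable def X (γ : ℕ → ℝ) (s : ℕ) (ω : ℕ → Bool) : ℝ :=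
  limUnder atTop (fun n => approx γ n s ω)

/-- The standing hypothesis. -/
def Good (γ : ℕ → ℝ) : Prop := ∀ k, 0 < γ k ∧ γ k ≤ 1 / 8

variable {γ : ℕ → ℝ}

lemma abs_approx_le (hγ : Good γ) (n s : ℕ) (ω : ℕ → Bool) : |approx γ n s ω| ≤ 1 := by
  induction n generalizing s with
  | zero => simp [approx]
  | succ n ih => exact abs_br_le_one (hγ s).1 (hγ s).2 (ih (s + 1))

lemma dist_approx_succ_le (hγ : Good γ) (n s : ℕ) (ω : ℕ → Bool) :
    dist (approx γ n s ω) (approx γ (n + 1) s ω) ≤ 2 * (1 / 4) ^ n := by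
  induction n generalizing s with
  | zero =>
    rw [Real.dist_eq]
    calc |approx γ 0 s ω - approx γ (0 + 1) s ω| ≤ |approx γ 0 s ω| + |approx γ (0 + 1) s ω| :=
          abs_sub _ _
      _ ≤ 1 + 1 := add_le_add (abs_approx_le hγ _ _ _) (abs_approx_le hγ _ _ _)
      _ = 2 * (1 / 4) ^ 0 := by norm_num
  | succ n ih =>
    rw [Real.dist_eq]
    have h1 : |approx γ (n + 1) s ω - approx γ (n + 1 + 1) s ω| ≤
        2 * γ s * |approx γ n (s + 1) ω - approx γ (n + 1) (s + 1) ω| :=
      abs_br_sub_le (hγ s).1 (hγ s).2 (abs_approx_le hγ _ _ _) (abs_approx_le hγ _ _ _)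
    have h2 := ih (s + 1)
    rw [Real.dist_eq] at h2
    have h3 := (hγ s).1
    have h4 := (hγ s).2
    calc |approx γ (n + 1) s ω - approx γ (n + 1 + 1) s ω|
        ≤ 2 * γ s * |approx γ n (s + 1) ω - approx γ (n + 1) (s + 1) ω| := h1
      _ ≤ (1 / 4) * (2 * (1 / 4) ^ n) := by
          apply mul_le_mul _ h2 (abs_nonneg _) (by norm_num)
          linarith
      _ = 2 * (1 / 4) ^ (n + 1) := by ring

lemma tendsto_approx (hγ : Good γ) (s : ℕ) (ω : ℕ → Bool) :
    Tendsto (fun n => approx γ n s ω) atTop (𝓝 (X γ s ω)) := by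
  have : CauchySeq (fun n => approx γ n s ω) :=
    cauchySeq_of_le_geometric (1 / 4) 2 (by norm_num) (fun n => dist_approx_succ_le hγ n s ω)
  exact tendsto_nhds_limUnder (cauchySeq_tendsto_of_complete this)

lemma dist_approx_X_le (hγ : Good γ) (n s : ℕ) (ω : ℕ → Bool) :
    dist (approx γ n s ω) (X γ s ω) ≤ 2 * (1 / 4) ^ n / (1 - 1 / 4) :=
  dist_le_of_le_geometric_of_tendsto (1 / 4) 2 (by norm_num)
    (fun n => dist_approx_succ_le hγ n s ω) (tendsto_approx hγ s ω) n

lemma abs_X_le (hγ : Good γ) (s : ℕ) (ω : ℕ → Bool) : |X γ s ω| ≤ 1 :=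
  le_of_tendsto ((tendsto_approx hγ s ω).abs) (Eventually.of_forall fun n => abs_approx_le hγ n s ω)

lemma continuous_br (b : Bool) (g : ℝ) : Continuous (br b g) := by
  unfold br
  fun_prop

/-- The functional equation of the coding map. -/
lemma X_eq (hγ : Good γ) (s : ℕ) (ω : ℕ → Bool) :
    X γ s ω = br (ω s) (γ s) (X γ (s + 1) ω) := by
  have h1 : Tendsto (fun n => approx γ (n + 1) s ω) atTop (𝓝 (X γ s ω)) :=
    (tendsto_add_atTop_iff_nat 1).2 (tendsto_approx hγ s ω)
  have h2 : Tendsto (fun n => br (ω s) (γ s) (approx γ n (s + 1) ω)) atTop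
      (𝓝 (br (ω s) (γ s) (X γ (s + 1) ω))) :=
    ((continuous_br (ω s) (γ s)).tendsto _).comp (tendsto_approx hγ (s + 1) ω)
  exact tendsto_nhds_unique h1 h2

lemma continuous_approx (n s : ℕ) : Continuous (approx γ n s) := by
  induction n generalizing s with
  | zero => exact continuous_const
  | succ n ih =>
    have h1 : Continuous fun ω : ℕ → Bool => (if ω s then (1 : ℝ) else -1) :=
      (continuous_of_discreteTopology (f := fun b : Bool => if b then (1 : ℝ) else -1)).comp
        (continuous_apply s)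
    have h2 := ih (s + 1)
    have : approx γ (n + 1) s = fun ω => (if ω s then (1 : ℝ) else -1) *
        √(1 - 2 * γ s * (1 - approx γ n (s + 1) ω)) := by
      funext ω; rfl
    rw [this]
    apply h1.mul
    fun_prop

lemma continuous_X (hγ : Good γ) (s : ℕ) : Continuous (X γ s) := by
  have hu : TendstoUniformly (fun n ω => approx γ n s ω) (X γ s) atTop := by
    rw [Metric.tendstoUniformly_iff]
    intro ε hε
    have h1 : Tendsto (fun n : ℕ => (2 * (1 / 4) ^ n / (1 - 1 / 4) : ℝ)) atTop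
        (𝓝 (2 * 0 / (1 - 1 / 4))) := by
      apply Tendsto.div_const
      apply Tendsto.const_mul
      exact tendsto_pow_atTop_nhds_zero_of_lt_one (by norm_num) (by norm_num)
    rw [mul_zero, zero_div] at h1
    filter_upwards [h1.eventually (gt_mem_nhds hε)] with n hn ω
    rw [dist_comm]
    exact lt_of_le_of_lt (dist_approx_X_le hγ n s ω) hn
  exact hu.continuous (Frequently.of_forall fun n => continuous_approx n s)

/-- `X s` only depends on the digits from `s` on. -/
lemma approx_congr (n s : ℕ) {ω ω' : ℕ → Bool} (h : ∀ k, s ≤ k → ω k = ω' k) :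
    approx γ n s ω = approx γ n s ω' := by
  induction n generalizing s with
  | zero => rfl
  | succ n ih =>
    show br (ω s) (γ s) (approx γ n (s + 1) ω) = br (ω' s) (γ s) (approx γ n (s + 1) ω')
    rw [h s le_rfl, ih (s + 1) (fun k hk => h k (by omega))]

lemma X_congr (s : ℕ) {ω ω' : ℕ → Bool} (h : ∀ k, s ≤ k → ω k = ω' k) :
    X γ s ω = X γ s ω' := by
  unfold X
  congr 1
  funext n
  exact approx_congr n s h

/-- The flip of the `s`-th digit. -/
def flip (s : ℕ) (ω : ℕ → Bool) : ℕ → Bool := fun k => if k = s then !(ω k) else ω k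

lemma X_flip (hγ : Good γ) (s : ℕ) (ω : ℕ → Bool) : X γ s (flip s ω) = - X γ s ω := by
  rw [X_eq hγ s (flip s ω), X_eq hγ s ω]
  have h1 : X γ (s + 1) (flip s ω) = X γ (s + 1) ω := by
    apply X_congr
    intro k hk
    have : k ≠ s := by omega
    simp [flip, this]
  rw [h1]
  have : flip s ω s = !(ω s) := by simp [flip]
  rw [this, br_not]

lemma X_sq (hγ : Good γ) (s : ℕ) (ω : ℕ → Bool) :
    (X γ s ω) ^ 2 = 1 - 2 * γ s * (1 - X γ (s + 1) ω) := by
  rw [X_eq hγ s ω]
  exact br_sq (hγ s).1 (hγ s).2 (abs_X_le hγ _ _)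

/-- Points with different digits at `s` are far apart. -/
lemma one_le_abs_sub_of_ne (hγ : Good γ) (s : ℕ) {ω ω' : ℕ → Bool} (h : ω s ≠ ω' s) :
    1 ≤ |X γ s ω - X γ s ω'| := by
  have h1 := br_true_pos (hγ s).1 (hγ s).2 (abs_X_le hγ (s + 1) ω)
  have h2 := br_true_pos (hγ s).1 (hγ s).2 (abs_X_le hγ (s + 1) ω')
  rw [X_eq hγ s ω, X_eq hγ s ω']
  cases hb : ω s <;> cases hb' : ω' s
  · exact absurd (hb.trans hb'.symm) h
  · rw [br_false_neg, abs_sub_comm]
    rw [abs_of_pos (by linarith)]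
    linarith
  · rw [br_false_neg, abs_of_pos (by linarith)]
    linarith
  · exact absurd (hb.trans hb'.symm) h

/-- Product of the first `n` parameters from `s` on. -/
noncomputable def Gam (γ : ℕ → ℝ) (s n : ℕ) : ℝ := ∏ k ∈ Finset.range n, γ (s + k)

lemma Gam_pos (hγ : Good γ) (s n : ℕ) : 0 < Gam γ s n :=
  Finset.prod_pos fun k _ => (hγ (s + k)).1

lemma Gam_succ (s n : ℕ) : Gam γ s (n + 1) = Gam γ s n * γ (s + n) := Finset.prod_range_succ _ _

lemma Gam_succ' (s n : ℕ) : Gam γ s (n + 1) = γ s * Gam γ (s + 1) n := by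
  unfold Gam
  rw [Finset.prod_range_succ']
  rw [mul_comm]
  congr 1
  apply Finset.prod_congr rfl
  intro k _
  congr 1
  ring

lemma Gam_anti (hγ : Good γ) (s : ℕ) : Antitone (Gam γ s) := by
  apply antitone_nat_of_succ_le
  intro n
  rw [Gam_succ]
  have h1 := Gam_pos hγ s n
  have h2 := (hγ (s + n)).2
  nlinarith

lemma Gam_le_one (hγ : Good γ) (s n : ℕ) : Gam γ s n ≤ 1 := by
  have := Gam_anti hγ s (Nat.zero_le n)
  simpa [Gam] using this

/-- Lower bound of distances. -/
lemma Gam_mul_le (hγ : Good γ) (n s : ℕ) {ω ω' : ℕ → Bool}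
    (h : ∀ k, k < n → ω (s + k) = ω' (s + k)) :
    Gam γ s n * |X γ (s + n) ω - X γ (s + n) ω'| ≤ |X γ s ω - X γ s ω'| := by
  induction n generalizing s with
  | zero => simp [Gam]
  | succ n ih =>
    have h0 : ω s = ω' s := by simpa using h 0 (Nat.succ_pos n)
    have h1 : ∀ k, k < n → ω (s + 1 + k) = ω' (s + 1 + k) := by
      intro k hk
      have := h (k + 1) (by omega)
      have e : s + (k + 1) = s + 1 + k := by ring
      rwa [e] at this
    have h2 := ih (s + 1) h1
    have e2 : s + 1 + n = s + (n + 1) := by ring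
    rw [e2] at h2
    rw [Gam_succ']
    calc γ s * Gam γ (s + 1) n * |X γ (s + (n + 1)) ω - X γ (s + (n + 1)) ω'|
        = γ s * (Gam γ (s + 1) n * |X γ (s + (n + 1)) ω - X γ (s + (n + 1)) ω'|) := by ring
      _ ≤ γ s * |X γ (s + 1) ω - X γ (s + 1) ω'| := mul_le_mul_of_nonneg_left h2 (hγ s).1.le
      _ ≤ |X γ s ω - X γ s ω'| := by
        rw [X_eq hγ s ω, X_eq hγ s ω', ← h0]
        exact le_abs_br_sub (hγ s).1 (hγ s).2 (abs_X_le hγ _ _) (abs_X_le hγ _ _)

/-- Upper bound of distances. -/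
lemma abs_X_sub_le (hγ : Good γ) (n s : ℕ) {ω ω' : ℕ → Bool}
    (h : ∀ k, k < n → ω (s + k) = ω' (s + k)) :
    |X γ s ω - X γ s ω'| ≤ 2 ^ n * Gam γ s n * 2 := by
  induction n generalizing s with
  | zero =>
    simp only [pow_zero, Gam, Finset.range_zero, Finset.prod_empty, one_mul]
    calc |X γ s ω - X γ s ω'| ≤ |X γ s ω| + |X γ s ω'| := abs_sub _ _
      _ ≤ 1 + 1 := add_le_add (abs_X_le hγ _ _) (abs_X_le hγ _ _)
      _ = 2 := by norm_num
  | succ n ih =>
    have h0 : ω s = ω' s := by simpa using h 0 (Nat.succ_pos n)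
    have h1 : ∀ k, k < n → ω (s + 1 + k) = ω' (s + 1 + k) := by
      intro k hk
      have := h (k + 1) (by omega)
      have e : s + (k + 1) = s + 1 + k := by ring
      rwa [e] at this
    have h2 := ih (s + 1) h1
    rw [Gam_succ']
    calc |X γ s ω - X γ s ω'| ≤ 2 * γ s * |X γ (s + 1) ω - X γ (s + 1) ω'| := by
          rw [X_eq hγ s ω, X_eq hγ s ω', ← h0]
          exact abs_br_sub_le (hγ s).1 (hγ s).2 (abs_X_le hγ _ _) (abs_X_le hγ _ _)
      _ ≤ 2 * γ s * (2 ^ n * Gam γ (s + 1) n * 2) :=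
          mul_le_mul_of_nonneg_left h2 (by linarith [(hγ s).1])
      _ = 2 ^ (n + 1) * (γ s * Gam γ (s + 1) n) * 2 := by ring

/-- Close points share their first digits. -/
lemma eq_of_abs_sub_lt (hγ : Good γ) {n s : ℕ} {ω ω' : ℕ → Bool}
    (h : |X γ s ω - X γ s ω'| < Gam γ s n) : ∀ k, k ≤ n → ω (s + k) = ω' (s + k) := by
  intro k
  induction k using Nat.strong_induction_on with
  | _ k ih =>
    intro hk
    by_contra hne
    have h1 := Gam_mul_le hγ k s (ω := ω) (ω' := ω') (fun j hj => ih j hj (by omega))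
    have h2 := one_le_abs_sub_of_ne hγ (s + k) hne
    have h3 : Gam γ s n ≤ Gam γ s k := Gam_anti hγ s hk
    have h4 := Gam_pos hγ s k
    nlinarith

lemma X_injective (hγ : Good γ) : Function.Injective (X γ 0) := by
  intro ω ω' h
  funext k
  have := eq_of_abs_sub_lt hγ (n := k) (s := 0) (ω := ω) (ω' := ω')
    (by rw [h, sub_self, abs_zero]; exact Gam_pos hγ 0 k) k le_rfl
  simpa using this

end Pool.Agent.Helper59.EqMeas
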