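import Pool.Agent.Helper59.EqMeas.Upper

/-!
The explicit parameters.
-/

open Filter Topology Set MeasureTheory
open scoped ENNReal NNReal

namespace Pool.Agent.Helper59.EqMeas

/-- Extra exponent: `k` at powers of two, `0` elsewhere. -/
def extra (k : ℕ) : ℕ := if k = 2 ^ Nat.log 2 k then k else 0

lemma extra_le (k : ℕ) : extra k ≤ k := by
  unfold extra; split_ifs <;> omega

lemma sum_extra_aux (n : ℕ) (hn : 1 ≤ n) :
    ∑ k ∈ Finset.range (n + 1), extra k + 1 ≤ 2 ^ (Nat.log 2 n + 1) := by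
  induction n, hn using Nat.le_induction with
  | base => simp [Finset.sum_range_succ, extra]
  | succ n hn ih =>
    rw [Finset.sum_range_succ]
    by_cases h : n + 1 = 2 ^ Nat.log 2 (n + 1)
    · have e : extra (n + 1) = n + 1 := by unfold extra; rw [if_pos h]
      rw [e]
      have h1 : Nat.log 2 n < Nat.log 2 (n + 1) := by
        apply Nat.log_lt_of_lt_pow (by omega)
        omega
      have h2 : 2 ^ (Nat.log 2 n + 1) ≤ 2 ^ Nat.log 2 (n + 1) := Nat.pow_le_pow_right (by norm_num) h1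
      have h3 : 2 ^ (Nat.log 2 (n + 1) + 1) = 2 ^ Nat.log 2 (n + 1) + 2 ^ Nat.log 2 (n + 1) := by
        ring
      omega
    · have e : extra (n + 1) = 0 := by unfold extra; rw [if_neg h]
      rw [e]
      have h2 : 2 ^ (Nat.log 2 n + 1) ≤ 2 ^ (Nat.log 2 (n + 1) + 1) :=
        Nat.pow_le_pow_right (by norm_num) (Nat.succ_le_succ (Nat.log_mono_right (Nat.le_succ n)))
      omega

lemma sum_extra (n : ℕ) : ∑ k ∈ Finset.range n, extra k ≤ 2 * n := by
  rcases n with _ | n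
  · simp
  rcases Nat.eq_zero_or_pos n with h | h
  · subst h; simp [extra]
  · have h1 := sum_extra_aux n h
    have h2 : 2 ^ (Nat.log 2 n + 1) = 2 * 2 ^ Nat.log 2 n := by ring
    have h3 : 2 ^ Nat.log 2 n ≤ n := Nat.pow_log_le_self 2 (by omega)
    omega

/-- The parameters. -/
noncomputable def gam (k : ℕ) : ℝ := (1 / 2 : ℝ) ^ (extra k + 3)

lemma good_gam : Good gam := by
  intro k
  unfold gam
  refine ⟨by positivity, ?_⟩
  calc (1 / 2 : ℝ) ^ (extra k + 3) ≤ (1 / 2) ^ 3 :=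
        pow_le_pow_of_le_one (by norm_num) (by norm_num) (by omega)
    _ = 1 / 8 := by norm_num

lemma sparse_gam : Sparse gam := by
  intro N
  refine ⟨2 ^ N, Nat.lt_two_pow_self.le, ?_⟩
  have e : extra (2 ^ N) = 2 ^ N := by
    unfold extra; rw [if_pos]; rw [Nat.log_pow (by norm_num)]
  unfold gam
  rw [e, pow_add]
  have h1 : (2 : ℝ) ^ (2 ^ N) * (1 / 2) ^ (2 ^ N) = 1 := by rw [← mul_pow]; norm_num
  calc (2 : ℝ) ^ (2 ^ N) * 4 * ((1 / 2) ^ (2 ^ N) * (1 / 2) ^ 3)
      = ((2 : ℝ) ^ (2 ^ N) * (1 / 2) ^ (2 ^ N)) * (4 * (1 / 2) ^ 3) := by ring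
    _ < 1 := by rw [h1]; norm_num

lemma add_three_le (k : ℕ) : (k : ℝ) + 3 ≤ 3 * (3 / 2) ^ k := by
  induction k with
  | zero => norm_num
  | succ k ih =>
    rw [pow_succ]
    push_cast
    have : (0 : ℝ) ≤ k := Nat.cast_nonneg k
    nlinarith

lemma slow_gam : Slow gam := by
  intro k
  refine le_trans ?_ (add_three_le k)
  unfold gam
  rw [Real.log_pow, one_div, Real.log_inv]
  have h1 : Real.log 2 ≤ 1 := by
    have := Real.log_two_lt_d9
    linarith
  have h0 : 0 ≤ Real.log 2 := Real.log_nonneg (by norm_num)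
  have h2 : ((extra k + 3 : ℕ) : ℝ) ≤ k + 3 := by
    have := extra_le k
    have h3 : extra k + 3 ≤ k + 3 := by omega
    exact_mod_cast h3
  have h3 : (0 : ℝ) ≤ ((extra k + 3 : ℕ) : ℝ) := Nat.cast_nonneg _
  nlinarith

lemma le_Gam_gam (n : ℕ) : (2⁻¹ : ℝ) ^ (5 * n) ≤ Gam gam 0 n := by
  unfold Gam gam
  rw [Finset.prod_pow_eq_pow_sum, ← one_div]
  apply pow_le_pow_of_le_one (by norm_num) (by norm_num)
  simp only [zero_add]
  rw [Finset.sum_add_distrib, Finset.sum_const, Finset.card_range, smul_eq_mul]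
  have := sum_extra n
  omega

end Pool.Agent.Helper59.EqMeas
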