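import Mathlib

/-!
Lower bound of logarithmic energies by monic polynomials (Vandermonde determinants).
-/

open Filter Topology Set MeasureTheory
open scoped ENNReal NNReal Nat

namespace Pool.Agent.Helper59.EqMeas

/-- The logarithmic kernel, shifted by `A`. -/
noncomputable def kap (A : ℝ) (x y : ℝ) : ℝ≥0∞ :=
  if x = y then (⊤ : ℝ≥0∞) else ENNReal.ofReal (A - Real.log (dist x y))

lemma measurable_kap (A : ℝ) : Measurable (Function.uncurry (kap A)) := by
  unfold kap Function.uncurry
  apply Measurable.ite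
  · exact measurableSet_eq_fun measurable_fst measurable_snd
  · exact measurable_const
  · apply ENNReal.measurable_ofReal.comp
    apply Measurable.sub measurable_const
    exact Real.measurable_log.comp (measurable_fst.dist measurable_snd)

/-- Choice of points by the method of conditional expectations. -/
lemma exists_points_aux {ν : Measure ℝ} [IsProbabilityMeasure ν] {κ : ℝ → ℝ → ℝ≥0∞}
    (hκ : Measurable (Function.uncurry κ)) {K : Set ℝ} (hK : ν Kᶜ = 0) (j : ℕ) :
    ∀ r : ℕ, ∃ x : ℕ → ℝ, (∀ i < j, x i ∈ K) ∧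
      ∑ b ∈ Finset.range j, ∑ a ∈ Finset.range b, κ (x a) (x b) +
        (r : ℝ≥0∞) * ∑ a ∈ Finset.range j, ∫⁻ y, κ (x a) y ∂ν +
        (r.choose 2 : ℝ≥0∞) * ∫⁻ x, ∫⁻ y, κ x y ∂ν ∂ν ≤
      ((j + r).choose 2 : ℝ≥0∞) * ∫⁻ x, ∫⁻ y, κ x y ∂ν ∂ν := by
  induction j with
  | zero =>
    intro r
    refine ⟨fun _ => 0, by simp, ?_⟩
    simp
  | succ j ih =>
    intro r
    obtain ⟨x, hxK, hx⟩ := ih (r + 1)
    set I := ∫⁻ x, ∫⁻ y, κ x y ∂ν ∂ν with hI
    set U : ℝ → ℝ≥0∞ := fun x => ∫⁻ y, κ x y ∂ν with hU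
    have hUm : Measurable U := hκ.lintegral_prod_right'
    set S := ∑ b ∈ Finset.range j, ∑ a ∈ Finset.range b, κ (x a) (x b) with hS
    have hm1 : ∀ a, Measurable (κ (x a)) := fun a => hκ.of_uncurry_left
    set f : ℝ → ℝ≥0∞ := fun y => (S + ∑ a ∈ Finset.range j, κ (x a) y) +
      (r : ℝ≥0∞) * (∑ a ∈ Finset.range j, U (x a) + U y) + (r.choose 2 : ℝ≥0∞) * I with hf
    have hfm : Measurable f := by
      apply Measurable.add _ measurable_const
      apply Measurable.add
      · apply measurable_const.add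
        exact Finset.measurable_fun_sum _ (fun a _ => hm1 a)
      · exact (measurable_const.add hUm).const_mul _
    obtain ⟨y, hyK, hy⟩ := exists_notMem_null_le_lintegral hfm.aemeasurable hK
    have hyK' : y ∈ K := by simpa using hyK
    have hint : ∫⁻ y, f y ∂ν = (S + ∑ a ∈ Finset.range j, U (x a)) +
        (r : ℝ≥0∞) * (∑ a ∈ Finset.range j, U (x a) + I) + (r.choose 2 : ℝ≥0∞) * I := by
      have i1 : ∫⁻ y, ∑ a ∈ Finset.range j, κ (x a) y ∂ν = ∑ a ∈ Finset.range j, U (x a) := by
        rw [lintegral_finsetSum _ (fun a _ => hm1 a)]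
      have i2 : ∫⁻ y, (S + ∑ a ∈ Finset.range j, κ (x a) y) ∂ν =
          S + ∑ a ∈ Finset.range j, U (x a) := by
        rw [lintegral_add_left measurable_const, i1, lintegral_const, measure_univ, mul_one]
      have i3 : ∫⁻ y, ((r : ℝ≥0∞) * (∑ a ∈ Finset.range j, U (x a) + U y)) ∂ν =
          (r : ℝ≥0∞) * (∑ a ∈ Finset.range j, U (x a) + I) := by
        have m1 : Measurable fun y => (∑ a ∈ Finset.range j, U (x a) + U y) :=
          measurable_const.add hUm
        rw [lintegral_const_mul _ m1, lintegral_add_left measurable_const,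
          lintegral_const, measure_univ, mul_one]
      have m2 : Measurable fun y => ((r : ℝ≥0∞) * (∑ a ∈ Finset.range j, U (x a) + U y)) :=
        (measurable_const.add hUm).const_mul _
      have i4 : ∫⁻ y, ((S + ∑ a ∈ Finset.range j, κ (x a) y) +
          (r : ℝ≥0∞) * (∑ a ∈ Finset.range j, U (x a) + U y)) ∂ν =
          (S + ∑ a ∈ Finset.range j, U (x a)) +
            (r : ℝ≥0∞) * (∑ a ∈ Finset.range j, U (x a) + I) := by
        rw [lintegral_add_right _ m2, i2, i3]
      rw [hf, lintegral_add_right _ measurable_const, i4, lintegral_const, measure_univ, mul_one]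
    refine ⟨Function.update x j y, ?_, ?_⟩
    · intro i hi
      rcases Nat.lt_succ_iff_lt_or_eq.1 hi with h | h
      · rw [Function.update_of_ne (by omega)]; exact hxK i h
      · rw [h, Function.update_self]; exact hyK'
    · have e1 : ∑ b ∈ Finset.range (j + 1), ∑ a ∈ Finset.range b,
          κ (Function.update x j y a) (Function.update x j y b) =
          S + ∑ a ∈ Finset.range j, κ (x a) y := by
        rw [Finset.sum_range_succ]
        congr 1
        · apply Finset.sum_congr rfl
          intro b hb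
          rw [Finset.mem_range] at hb
          apply Finset.sum_congr rfl
          intro a ha
          rw [Finset.mem_range] at ha
          rw [Function.update_of_ne (by omega), Function.update_of_ne (by omega)]
        · apply Finset.sum_congr rfl
          intro a ha
          rw [Finset.mem_range] at ha
          rw [Function.update_of_ne (by omega), Function.update_self]
      have e2 : ∑ a ∈ Finset.range (j + 1), ∫⁻ z, κ (Function.update x j y a) z ∂ν =
          ∑ a ∈ Finset.range j, U (x a) + U y := by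
        rw [Finset.sum_range_succ]
        congr 1
        · apply Finset.sum_congr rfl
          intro a ha
          rw [Finset.mem_range] at ha
          rw [Function.update_of_ne (by omega)]
        · rw [Function.update_self]
      rw [e1, e2]
      refine hy.trans ?_
      rw [hint]
      refine le_trans (le_of_eq ?_) (hx.trans (le_of_eq ?_))
      · have hc : ((r + 1).choose 2 : ℝ≥0∞) = r + (r.choose 2 : ℝ≥0∞) := by
          rw [Nat.choose_succ_succ' r 1, Nat.choose_one_right]
          push_cast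
          rfl
        rw [hc]
        push_cast
        ring
      · have : j + (r + 1) = j + 1 + r := by ring
        rw [this]

lemma exists_points {ν : Measure ℝ} [IsProbabilityMeasure ν] {κ : ℝ → ℝ → ℝ≥0∞}
    (hκ : Measurable (Function.uncurry κ)) {K : Set ℝ} (hK : ν Kᶜ = 0) (k : ℕ) :
    ∃ x : ℕ → ℝ, (∀ i < k, x i ∈ K) ∧
      ∑ b ∈ Finset.range k, ∑ a ∈ Finset.range b, κ (x a) (x b) ≤
      (k.choose 2 : ℝ≥0∞) * ∫⁻ x, ∫⁻ y, κ x y ∂ν ∂ν := by
  obtain ⟨x, h1, h2⟩ := exists_points_aux hκ hK k 0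
  refine ⟨x, h1, ?_⟩
  simpa using h2

lemma prod_Ioi_eq {M : Type*} [CommMonoid M] (k : ℕ) (f : ℕ → ℕ → M) :
    ∏ i : Fin k, ∏ j ∈ Finset.Ioi i, f i j = ∏ b ∈ Finset.range k, ∏ a ∈ Finset.range b, f a b := by
  rw [Finset.prod_comm' (t' := Finset.univ) (s' := fun j : Fin k => Finset.Iio j)]
  · rw [Finset.prod_range]
    apply Finset.prod_congr rfl
    intro j _
    have h1 : Finset.range (j : ℕ) = (Finset.Iio j).map Fin.valEmbedding := by
      rw [Fin.map_valEmbedding_Iio, Nat.Iio_eq_range]
    rw [h1, Finset.prod_map]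
    rfl
  · intro i j
    simp

/-- Bound of the product of distances by a monic polynomial that is small at the points. -/
lemma prod_dist_le {n q : ℕ} (p : Polynomial ℝ) (hp : p.Monic)
    (hpn : p.natDegree = n) {ρ : ℝ} (x : ℕ → ℝ) (hx : ∀ i < q * n, |x i| ≤ 1)
    (hpx : ∀ i < q * n, |p.eval (x i)| ≤ ρ) :
    ∏ b ∈ Finset.range (q * n), ∏ a ∈ Finset.range b, |x b - x a| ≤
      ((q * n)! : ℝ) * ρ ^ (∑ i ∈ Finset.range (q * n), i / n) := by
  classical
  set k := q * n with hk
  let v : Fin k → ℝ := fun i => x i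
  let Q : Fin k → Polynomial ℝ := fun j => Polynomial.X ^ ((j : ℕ) % n) * p ^ ((j : ℕ) / n)
  have hQmonic : ∀ j, (Q j).Monic := fun j => (Polynomial.monic_X_pow _).mul (hp.pow _)
  have hQdeg : ∀ j, (Q j).natDegree = j := by
    intro j
    rw [(Polynomial.monic_X_pow _).natDegree_mul (hp.pow _), Polynomial.natDegree_X_pow,
      hp.natDegree_pow, hpn]
    exact Nat.mod_add_div' _ _
  have hdet := Matrix.det_eval_matrixOfPolynomials_eq_det_vandermonde v Q hQdeg hQmonic
  rw [Matrix.det_vandermonde] at hdet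
  have h1 : ∏ b ∈ Finset.range k, ∏ a ∈ Finset.range b, |x b - x a| =
      |(Matrix.of (fun i j => ((Q j).eval (v i)))).det| := by
    rw [← hdet, Finset.abs_prod, ← prod_Ioi_eq k (fun a b => |x b - x a|)]
    apply Finset.prod_congr rfl
    intro i _
    rw [Finset.abs_prod]
  rw [h1, Matrix.det_apply]
  calc |∑ σ : Equiv.Perm (Fin k), Equiv.Perm.sign σ • ∏ i, (Matrix.of (fun i j => ((Q j).eval (v i)))) (σ i) i|
      ≤ ∑ σ : Equiv.Perm (Fin k), |Equiv.Perm.sign σ • ∏ i, (Matrix.of (fun i j => ((Q j).eval (v i)))) (σ i) i| :=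
        Finset.abs_sum_le_sum_abs _ _
    _ ≤ ∑ σ : Equiv.Perm (Fin k), ρ ^ (∑ i ∈ Finset.range k, i / n) := by
        apply Finset.sum_le_sum
        intro σ _
        have h2 : |Equiv.Perm.sign σ • ∏ i, (Matrix.of (fun i j => ((Q j).eval (v i)))) (σ i) i| =
            |∏ i, (Matrix.of (fun i j => ((Q j).eval (v i)))) (σ i) i| := by
          rcases Int.units_eq_one_or (Equiv.Perm.sign σ) with h | h
          · rw [h, one_smul]
          · rw [h, Units.neg_smul, one_smul, abs_neg]
        rw [h2, Finset.abs_prod, Finset.sum_range, ← Finset.prod_pow_eq_pow_sum]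
        apply Finset.prod_le_prod (fun i _ => abs_nonneg _)
        intro i _
        simp only [Matrix.of_apply, Q, v]
        rw [Polynomial.eval_mul, Polynomial.eval_pow, Polynomial.eval_pow, Polynomial.eval_X,
          abs_mul, abs_pow, abs_pow]
        have h3 : |x (σ i : ℕ)| ^ ((i : ℕ) % n) ≤ 1 := pow_le_one₀ (abs_nonneg _) (hx _ (σ i).2)
        have h4 : |p.eval (x (σ i : ℕ))| ^ ((i : ℕ) / n) ≤ ρ ^ ((i : ℕ) / n) :=
          pow_le_pow_left₀ (abs_nonneg _) (hpx _ (σ i).2) _
        calc |x (σ i : ℕ)| ^ ((i : ℕ) % n) * |p.eval (x (σ i : ℕ))| ^ ((i : ℕ) / n)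
            ≤ 1 * ρ ^ ((i : ℕ) / n) := by
              apply mul_le_mul h3 h4 (by positivity) (by norm_num)
          _ = ρ ^ ((i : ℕ) / n) := one_mul _
    _ = ((k)! : ℝ) * ρ ^ (∑ i ∈ Finset.range k, i / n) := by
        rw [Finset.sum_const, Finset.card_univ, Fintype.card_perm, Fintype.card_fin, nsmul_eq_mul]

lemma two_mul_sum_div (n q : ℕ) (hn : 0 < n) :
    2 * ∑ i ∈ Finset.range (q * n), i / n = n * (q * (q - 1)) := by
  induction q with
  | zero => simp
  | succ q ih =>
    have e : (q + 1) * n = q * n + n := by ring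
    rw [e, Finset.sum_range_add, mul_add, ih]
    have h1 : ∀ i ∈ Finset.range n, (q * n + i) / n = q := by
      intro i hi
      rw [Finset.mem_range] at hi
      rw [Nat.mul_comm q n, Nat.mul_add_div hn, Nat.div_eq_of_lt hi, add_zero]
    rw [Finset.sum_congr rfl h1, Finset.sum_const, Finset.card_range, smul_eq_mul]
    rcases q with _ | q
    · simp
    · simp only [Nat.succ_sub_one]
      ring

/-- Lower bound of the energy of a probability measure on `K ⊆ [-1,1]` when a monic polynomial of
degree `n` is bounded by `1/c` on `K`. -/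
theorem energy_lower {ν : Measure ℝ} [IsProbabilityMeasure ν] {K : Set ℝ} (hK : ν Kᶜ = 0)
    (hK1 : ∀ x ∈ K, |x| ≤ 1) {n : ℕ} (hn : 0 < n) (p : Polynomial ℝ) (hp : p.Monic)
    (hpn : p.natDegree = n) {c : ℝ} (hc : 0 < c) (hpK : ∀ x ∈ K, |p.eval x| ≤ 1 / c) (A : ℝ) :
    ENNReal.ofReal (A + Real.log c / n) ≤ ∫⁻ x, ∫⁻ y, kap A x y ∂ν ∂ν := by
  set I := ∫⁻ x, ∫⁻ y, kap A x y ∂ν ∂ν with hI
  rcases eq_or_ne I ⊤ with hItop | hItop
  · rw [hItop]; exact le_top
  apply ENNReal.ofReal_le_of_le_toReal
  set J := I.toReal with hJ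
  -- the main inequality for every `q`
  have main : ∀ q : ℕ, 1 ≤ q → (n : ℝ) * q * (q - 1) * Real.log c - 2 * (q * n) * Real.log (q * n) ≤
      (q * n) * (q * n - 1) * (J - A) := by
    intro q hq
    obtain ⟨x, hxK, hx⟩ := exists_points (measurable_kap A) hK (q * n)
    rw [← hI] at hx
    set k := q * n with hk
    have hk0 : 0 < k := Nat.mul_pos (by omega) hn
    have hfin : ((k.choose 2 : ℕ) : ℝ≥0∞) * I ≠ ⊤ := ENNReal.mul_ne_top (ENNReal.natCast_ne_top _) hItop
    have hsum_ne : ∑ b ∈ Finset.range k, ∑ a ∈ Finset.range b, kap A (x a) (x b) ≠ ⊤ :=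
      ne_top_of_le_ne_top hfin hx
    have hne : ∀ b ∈ Finset.range k, ∀ a ∈ Finset.range b, kap A (x a) (x b) ≠ ⊤ := by
      intro b hb a ha
      have h1 := (ENNReal.sum_ne_top.1 hsum_ne) b hb
      exact (ENNReal.sum_ne_top.1 h1) a ha
    have hne' : ∀ b ∈ Finset.range k, ∀ a ∈ Finset.range b, x a ≠ x b := by
      intro b hb a ha h
      exact hne b hb a ha (by unfold kap; rw [if_pos h])
    have hreal : ∑ b ∈ Finset.range k, ∑ a ∈ Finset.range b, (A - Real.log |x b - x a|) ≤
        (k.choose 2 : ℝ) * J := by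
      have h1 := ENNReal.toReal_mono hfin hx
      rw [ENNReal.toReal_mul, ENNReal.toReal_natCast, ENNReal.toReal_sum] at h1
      · refine le_trans ?_ h1
        apply Finset.sum_le_sum
        intro b hb
        rw [ENNReal.toReal_sum (hne b hb)]
        apply Finset.sum_le_sum
        intro a ha
        unfold kap
        rw [if_neg (hne' b hb a ha), dist_comm, Real.dist_eq]
        rw [ENNReal.toReal_ofReal']
        exact le_max_left _ _
      · intro b hb
        exact ENNReal.sum_ne_top.2 (hne b hb)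
    have hprod := prod_dist_le (q := q) p hp hpn (ρ := 1 / c) x
      (fun i hi => hK1 _ (hxK i hi)) (fun i hi => hpK _ (hxK i hi))
    rw [← hk] at hprod
    have hpos : ∀ b ∈ Finset.range k, ∀ a ∈ Finset.range b, |x b - x a| ≠ 0 := by
      intro b hb a ha
      exact abs_ne_zero.2 (sub_ne_zero.2 (hne' b hb a ha).symm)
    have hlogprod : ∑ b ∈ Finset.range k, ∑ a ∈ Finset.range b, Real.log |x b - x a| ≤
        Real.log (k ! : ℝ) - (∑ i ∈ Finset.range k, i / n : ℕ) * Real.log c := by
      have h1 : ∑ b ∈ Finset.range k, ∑ a ∈ Finset.range b, Real.log |x b - x a| =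
          Real.log (∏ b ∈ Finset.range k, ∏ a ∈ Finset.range b, |x b - x a|) := by
        rw [Real.log_prod]
        · apply Finset.sum_congr rfl
          intro b hb
          rw [Real.log_prod (hpos b hb)]
        · intro b hb
          exact Finset.prod_ne_zero_iff.2 (hpos b hb)
      rw [h1]
      have h2 : 0 < ∏ b ∈ Finset.range k, ∏ a ∈ Finset.range b, |x b - x a| := by
        apply Finset.prod_pos
        intro b hb
        apply Finset.prod_pos
        intro a ha
        exact abs_pos.2 (sub_ne_zero.2 (hne' b hb a ha).symm)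
      refine (Real.log_le_log h2 hprod).trans (le_of_eq ?_)
      rw [Real.log_mul (by positivity) (by positivity), Real.log_pow, one_div, Real.log_inv]
      ring
    have hfact : Real.log (k ! : ℝ) ≤ k * Real.log k := by
      rw [← Real.log_pow]
      apply Real.log_le_log (by positivity)
      exact_mod_cast Nat.factorial_le_pow k
    have hS : (2 : ℝ) * (∑ i ∈ Finset.range k, i / n : ℕ) = n * (q * (q - 1)) := by
      have h1 := two_mul_sum_div n q hn
      have h2 : ((2 * ∑ i ∈ Finset.range (q * n), i / n : ℕ) : ℝ) = ((n * (q * (q - 1)) : ℕ) : ℝ) := by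
        rw [h1]
      rw [Nat.cast_mul, Nat.cast_mul, Nat.cast_mul, Nat.cast_sub hq] at h2
      rw [hk]
      exact_mod_cast h2
    have hsumA : ∑ b ∈ Finset.range k, ∑ a ∈ Finset.range b, (A - Real.log |x b - x a|) =
        (k.choose 2 : ℝ) * A - ∑ b ∈ Finset.range k, ∑ a ∈ Finset.range b, Real.log |x b - x a| := by
      simp only [Finset.sum_sub_distrib, Finset.sum_const, Finset.card_range, nsmul_eq_mul]
      rw [← Finset.sum_mul]
      congr 2
      have := Finset.sum_range_id_mul_two k
      have h3 := Nat.choose_two_right k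
      have h4 : ∑ i ∈ Finset.range k, i = k.choose 2 := by
        rw [Finset.sum_range_id, h3]
      rw [← h4]
      push_cast
      rfl
    have hch : (k.choose 2 : ℝ) = k * (k - 1) / 2 := Nat.cast_choose_two ℝ k
    have hkr : (k : ℝ) = q * n := by rw [hk]; push_cast; ring
    rw [hsumA] at hreal
    rw [hch] at hreal
    have e1 : (k : ℝ) * (k - 1) / 2 * A - (Real.log (k ! : ℝ) -
        (∑ i ∈ Finset.range k, i / n : ℕ) * Real.log c) ≤ (k : ℝ) * (k - 1) / 2 * J := by
      linarith
    have e2 : (k : ℝ) * (k - 1) / 2 * A - (k * Real.log k -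
        (∑ i ∈ Finset.range k, i / n : ℕ) * Real.log c) ≤ (k : ℝ) * (k - 1) / 2 * J := by
      linarith
    have e3 : (k : ℝ) * (k - 1) * A - 2 * (k * Real.log k) +
        (2 * (∑ i ∈ Finset.range k, i / n : ℕ)) * Real.log c ≤ (k : ℝ) * (k - 1) * J := by
      linarith
    rw [hS] at e3
    rw [← hkr]
    linarith
  -- pass to the limit
  have hlim1 : Tendsto (fun q : ℕ => (1 - 1 / (q : ℝ)) * Real.log c -
      2 * (Real.log q / q + Real.log n * (1 / (q : ℝ)))) atTop
      (𝓝 ((1 - 0) * Real.log c - 2 * (0 + Real.log n * 0))) := by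
    have h1 : Tendsto (fun q : ℕ => (1 / (q : ℝ))) atTop (𝓝 0) := tendsto_one_div_atTop_nhds_zero_nat
    have h2 : Tendsto (fun q : ℕ => Real.log q / q) atTop (𝓝 0) := by
      have := Real.isLittleO_log_id_atTop.tendsto_div_nhds_zero
      exact this.comp tendsto_natCast_atTop_atTop
    exact ((tendsto_const_nhds.sub h1).mul_const _).sub ((h2.add (h1.const_mul _)).const_mul _)
  have hlim2 : Tendsto (fun q : ℕ => ((n : ℝ) - 1 / (q : ℝ)) * (J - A)) atTop
      (𝓝 (((n : ℝ) - 0) * (J - A))) := by
    have h1 : Tendsto (fun q : ℕ => (1 / (q : ℝ))) atTop (𝓝 0) := tendsto_one_div_atTop_nhds_zero_nat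
    exact (tendsto_const_nhds.sub h1).mul_const _
  have hfinal : (1 - 0) * Real.log c - 2 * (0 + Real.log n * 0) ≤ ((n : ℝ) - 0) * (J - A) := by
    apply le_of_tendsto_of_tendsto hlim1 hlim2
    filter_upwards [eventually_ge_atTop 1] with q hq
    have h1 := main q hq
    have hq0 : (0 : ℝ) < q := by exact_mod_cast hq
    have hn0 : (0 : ℝ) < n := by exact_mod_cast hn
    rw [Real.log_mul hq0.ne' hn0.ne'] at h1
    have h2 : (0 : ℝ) < n * q * q := by positivity
    have h3 : (n * q * q : ℝ) * ((1 - 1 / (q : ℝ)) * Real.log c -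
      2 * (Real.log q / q + Real.log n * (1 / (q : ℝ)))) ≤
        (n * q * q) * (((n : ℝ) - 1 / (q : ℝ)) * (J - A)) := by
      have e1 : (n * q * q : ℝ) * ((1 - 1 / (q : ℝ)) * Real.log c -
        2 * (Real.log q / q + Real.log n * (1 / (q : ℝ)))) =
        (n : ℝ) * q * (q - 1) * Real.log c - 2 * (q * n) * (Real.log q + Real.log n) := by
        field_simp
      have e2 : (n * q * q : ℝ) * (((n : ℝ) - 1 / (q : ℝ)) * (J - A)) =
        (q * n) * (q * n - 1) * (J - A) := by
        field_simp
      rw [e1, e2]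
      exact h1
    exact le_of_mul_le_mul_left h3 h2
  have hn0 : (0 : ℝ) < n := by exact_mod_cast hn
  have : Real.log c / n ≤ J - A := by
    rw [div_le_iff₀ hn0]
    linarith
  linarith

end Pool.Agent.Helper59.EqMeas
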