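import Pool.Agent.Helper59.EqMeas.Coding

/-!
The balanced (equilibrium) measure of the Cantor set, its Hausdorff gauge and its dimension.
-/

open Filter Topology Set MeasureTheory
open scoped ENNReal NNReal

namespace Pool.Agent.Helper59.EqMeas

/-- Fair coin. -/
noncomputable def coin : Measure Bool :=
  (2⁻¹ : ℝ≥0∞) • (Measure.dirac true + Measure.dirac false)

instance : IsProbabilityMeasure coin := by
  constructor
  simp only [coin, Measure.smul_apply, Measure.add_apply, measure_univ, smul_eq_mul]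
  rw [one_add_one_eq_two]
  exact ENNReal.inv_mul_cancel (by norm_num) (by norm_num)

lemma coin_singleton (b : Bool) : coin {b} = 2⁻¹ := by
  cases b <;> simp [coin]

lemma coin_map_not : coin.map (fun b => !b) = coin := by
  have hm : Measurable (fun b : Bool => !b) := measurable_from_top
  unfold coin
  rw [Measure.map_smul, Measure.map_add _ _ hm]
  have h1 : (Measure.dirac true).map (fun b : Bool => !b) = Measure.dirac false := by
    simp [Measure.map_dirac' hm]
  have h2 : (Measure.dirac false).map (fun b : Bool => !b) = Measure.dirac true := by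
    simp [Measure.map_dirac' hm]
  rw [h1, h2, add_comm]

/-- Bernoulli measure on `ℕ → Bool`. -/
noncomputable def P : Measure (ℕ → Bool) := Measure.infinitePi (fun _ : ℕ => coin)

instance : IsProbabilityMeasure P := by unfold P; infer_instance

/-- Measure of a cylinder. -/
lemma P_cyl (s n : ℕ) (ω : ℕ → Bool) :
    P {ω' | ∀ k, k < n → ω (s + k) = ω' (s + k)} = (2⁻¹ : ℝ≥0∞) ^ n := by
  classical
  have : {ω' : ℕ → Bool | ∀ k, k < n → ω (s + k) = ω' (s + k)} =
      Set.pi (((Finset.range n).map (addLeftEmbedding s) : Finset ℕ) : Set ℕ)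
        (fun i => ({ω i} : Set Bool)) := by
    ext ω'
    simp only [mem_ofPred_eq, Set.mem_pi, Finset.coe_map, addLeftEmbedding_apply, Finset.coe_range,
      Set.mem_image, mem_Iio, forall_exists_index, and_imp, forall_apply_eq_imp_iff₂,
      mem_singleton_iff]
    constructor
    · intro h k hk; exact (h k hk).symm
    · intro h k hk; exact (h k hk).symm
  rw [this]
  unfold P
  rw [Measure.infinitePi_pi _ (fun i _ => measurableSet_singleton _)]
  simp only [coin_singleton]
  rw [Finset.prod_const]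
  simp

lemma measurable_flip (s : ℕ) : Measurable (flip s) := by
  rw [measurable_pi_iff]
  intro k
  unfold flip
  by_cases hk : k = s
  · simp only [hk, if_true]
    exact (measurable_from_top (f := fun b : Bool => !b)).comp (measurable_pi_apply s)
  · simp only [hk, if_false]
    exact measurable_pi_apply k

/-- The flip preserves the Bernoulli measure. -/
lemma map_flip (s : ℕ) : P.map (flip s) = P := by
  have h := Measure.infinitePi_map_pi (μ := fun _ : ℕ => coin) (Y := fun _ : ℕ => Bool)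
    (f := fun k b => if k = s then !b else b) (fun k => measurable_from_top)
  have h2 : (fun (x : ℕ → Bool) (i : ℕ) => (if i = s then !(x i) else x i)) = flip s := rfl
  simp only [h2] at h
  unfold P
  rw [h]
  congr 1
  funext k
  by_cases hk : k = s
  · simp only [hk, if_true]; exact coin_map_not
  · simp only [hk, if_false]; exact Measure.map_id'

variable {γ : ℕ → ℝ}

/-- The Cantor set. -/
def K (γ : ℕ → ℝ) : Set ℝ := Set.range (X γ 0)

lemma isCompact_K (hγ : Good γ) : IsCompact (K γ) := isCompact_range (continuous_X hγ 0)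

/-- The balanced measure. -/
noncomputable def mu (γ : ℕ → ℝ) : Measure ℝ := P.map (X γ 0)

lemma measurable_X (hγ : Good γ) (s : ℕ) : Measurable (X γ s) := (continuous_X hγ s).measurable

lemma isProbabilityMeasure_mu (hγ : Good γ) : IsProbabilityMeasure (mu γ) :=
  Measure.isProbabilityMeasure_map (measurable_X hγ 0).aemeasurable

lemma mu_compl_K (hγ : Good γ) : mu γ (K γ)ᶜ = 0 := by
  unfold mu
  rw [Measure.map_apply (measurable_X hγ 0) (isCompact_K hγ).measurableSet.compl]
  have : X γ 0 ⁻¹' (K γ)ᶜ = ∅ := by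
    ext ω
    simp [K]
  rw [this, measure_empty]

/-- Short intervals have small mass. -/
lemma mu_Icc_le (hγ : Good γ) {n : ℕ} {t : ℝ} (ht : t < Gam γ 0 n) (x : ℝ) :
    mu γ (Icc x (x + t)) ≤ (2⁻¹ : ℝ≥0∞) ^ (n + 1) := by
  unfold mu
  rw [Measure.map_apply (measurable_X hγ 0) measurableSet_Icc]
  rcases (X γ 0 ⁻¹' Icc x (x + t)).eq_empty_or_nonempty with h | ⟨ω, hω⟩
  · rw [h, measure_empty]; exact zero_le
  · rw [← P_cyl 0 (n + 1) ω]
    apply measure_mono
    intro ω' hω' k hk
    apply eq_of_abs_sub_lt hγ (n := n) _ k (by omega)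
    rw [abs_lt]
    rw [Set.mem_preimage, mem_Icc] at hω hω'
    constructor <;> linarith [hω.1, hω.2, hω'.1, hω'.2]

/-- `H t` is the largest mass of an interval of length `t`. -/
noncomputable def H (γ : ℕ → ℝ) (t : ℝ) : ℝ≥0∞ := ⨆ x : ℝ, mu γ (Icc x (x + t))

lemma H_le_one (hγ : Good γ) (t : ℝ) : H γ t ≤ 1 := by
  have := isProbabilityMeasure_mu hγ
  exact iSup_le fun x => prob_le_one

lemma H_mono {t t' : ℝ} (h : t ≤ t') : H γ t ≤ H γ t' :=
  iSup_mono fun x => measure_mono (Icc_subset_Icc le_rfl (by linarith))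

lemma H_add_le (t u : ℝ) : H γ (t + u) ≤ H γ t + H γ u := by
  apply iSup_le
  intro x
  have hsub : Icc x (x + (t + u)) ⊆ Icc x (x + t) ∪ Icc (x + t) (x + t + u) := by
    intro y hy
    rw [mem_Icc] at hy
    rcases le_total y (x + t) with h | h
    · exact Or.inl ⟨hy.1, h⟩
    · exact Or.inr ⟨h, by linarith [hy.2]⟩
  calc mu γ (Icc x (x + (t + u))) ≤ mu γ (Icc x (x + t) ∪ Icc (x + t) (x + t + u)) :=
        measure_mono hsub
    _ ≤ mu γ (Icc x (x + t)) + mu γ (Icc (x + t) (x + t + u)) := measure_union_le _ _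
    _ ≤ H γ t + H γ u :=
        add_le_add (le_iSup (fun x => mu γ (Icc x (x + t))) x)
          (le_iSup (fun x => mu γ (Icc x (x + u))) (x + t))

lemma H_le_of_lt (hγ : Good γ) {n : ℕ} {t : ℝ} (ht : t < Gam γ 0 n) :
    H γ t ≤ (2⁻¹ : ℝ≥0∞) ^ (n + 1) :=
  iSup_le fun x => mu_Icc_le hγ ht x

lemma H_zero (hγ : Good γ) : H γ 0 = 0 := by
  apply le_antisymm _ (zero_le)
  have h1 : Tendsto (fun n : ℕ => (2⁻¹ : ℝ≥0∞) ^ (n + 1)) atTop (𝓝 0) :=
    (tendsto_add_atTop_iff_nat 1).2
      (ENNReal.tendsto_pow_atTop_nhds_zero_of_lt_one (by norm_num))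
  exact ge_of_tendsto' h1 fun n => H_le_of_lt hγ (Gam_pos hγ 0 n)

/-- The gauge function. -/
noncomputable def h (γ : ℕ → ℝ) (t : ℝ≥0) : ℝ≥0 := (H γ t).toNNReal

lemma coe_h (hγ : Good γ) (t : ℝ≥0) : (h γ t : ℝ≥0∞) = H γ t :=
  ENNReal.coe_toNNReal (ne_top_of_le_ne_top ENNReal.one_ne_top (H_le_one hγ _))

lemma h_zero (hγ : Good γ) : h γ 0 = 0 := by
  unfold h; rw [NNReal.coe_zero, H_zero hγ]; rfl

lemma h_mono (hγ : Good γ) : Monotone (h γ) := by
  intro t t' htt'
  have : (h γ t : ℝ≥0∞) ≤ h γ t' := by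
    rw [coe_h hγ, coe_h hγ]; exact H_mono (by exact_mod_cast htt')
  exact_mod_cast this

lemma h_add_le (hγ : Good γ) (t u : ℝ≥0) : h γ (t + u) ≤ h γ t + h γ u := by
  have : (h γ (t + u) : ℝ≥0∞) ≤ h γ t + h γ u := by
    rw [coe_h hγ, coe_h hγ, coe_h hγ, NNReal.coe_add]
    exact H_add_le _ _
  exact_mod_cast this

lemma h_continuous (hγ : Good γ) : Continuous (h γ) := by
  rw [Metric.continuous_iff]
  intro b ε hε
  obtain ⟨n, hn⟩ := exists_pow_lt_of_lt_one hε (by norm_num : (1 / 2 : ℝ) < 1)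
  refine ⟨Gam γ 0 n, Gam_pos hγ 0 n, ?_⟩
  intro a ha
  rw [NNReal.dist_eq] at ha ⊢
  have hsmall : ∀ u : ℝ≥0, (u : ℝ) < Gam γ 0 n → (h γ u : ℝ) < ε := by
    intro u hu
    have h1 := H_le_of_lt hγ hu
    rw [← coe_h hγ] at h1
    have h2 : (h γ u : ℝ≥0) ≤ (2⁻¹ : ℝ≥0) ^ (n + 1) := by
      have e : ((2⁻¹ : ℝ≥0∞) ^ (n + 1)) = (((2⁻¹ : ℝ≥0) ^ (n + 1) : ℝ≥0) : ℝ≥0∞) := by
        rw [ENNReal.coe_pow, ENNReal.coe_inv (by norm_num)]
        norm_num
      rw [e] at h1
      exact_mod_cast h1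
    have h3 : (h γ u : ℝ) ≤ (2⁻¹ : ℝ) ^ (n + 1) := by exact_mod_cast h2
    calc (h γ u : ℝ) ≤ (2⁻¹ : ℝ) ^ (n + 1) := h3
      _ ≤ (1 / 2) ^ n := by
        rw [pow_succ]
        have : (0 : ℝ) < (2⁻¹) ^ n := by positivity
        rw [one_div]
        nlinarith
      _ < ε := hn
  rcases le_total a b with hab | hab
  · obtain ⟨u, rfl⟩ := exists_add_of_le hab
    have h1 : (h γ (a + u) : ℝ) ≤ h γ a + h γ u := by exact_mod_cast h_add_le hγ a u
    have h2 : (h γ a : ℝ) ≤ h γ (a + u) := by exact_mod_cast h_mono hγ hab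
    have hu : (u : ℝ) < Gam γ 0 n := by
      rw [NNReal.coe_add] at ha
      have := abs_lt.1 ha
      linarith [this.1]
    have h3 := hsmall u hu
    rw [abs_lt]
    constructor <;> linarith
  · obtain ⟨u, rfl⟩ := exists_add_of_le hab
    have h1 : (h γ (b + u) : ℝ) ≤ h γ b + h γ u := by exact_mod_cast h_add_le hγ b u
    have h2 : (h γ b : ℝ) ≤ h γ (b + u) := by exact_mod_cast h_mono hγ hab
    have hu : (u : ℝ) < Gam γ 0 n := by
      rw [NNReal.coe_add] at ha
      have := abs_lt.1 ha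
      linarith [this.2]
    have h3 := hsmall u hu
    rw [abs_lt]
    constructor <;> linarith

/-- Any set of finite diameter has mass at most `H` of its diameter. -/
lemma mu_le_H (E : Set ℝ) (hE : Metric.ediam E ≠ ⊤) :
    mu γ E ≤ H γ (Metric.ediam E).toReal := by
  rcases E.eq_empty_or_nonempty with rfl | hne
  · rw [measure_empty]; exact zero_le
  · have hb : Bornology.IsBounded E := Metric.isBounded_iff_ediam_ne_top.2 hE
    have hbb : BddBelow E := hb.bddBelow
    have hsub : E ⊆ Icc (sInf E) (sInf E + (Metric.ediam E).toReal) := by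
      intro y hy
      refine ⟨csInf_le hbb hy, ?_⟩
      have : y - (Metric.ediam E).toReal ≤ sInf E := by
        apply le_csInf hne
        intro z hz
        have h1 : dist y z ≤ (Metric.ediam E).toReal := by
          rw [dist_edist]
          exact ENNReal.toReal_mono hE (Metric.edist_le_ediam_of_mem hy hz)
        rw [Real.dist_eq] at h1
        linarith [(abs_le.1 h1).2]
      linarith
    calc mu γ E ≤ mu γ (Icc (sInf E) (sInf E + (Metric.ediam E).toReal)) := measure_mono hsub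
      _ ≤ H γ (Metric.ediam E).toReal :=
        le_iSup (fun x => mu γ (Icc x (x + (Metric.ediam E).toReal))) (sInf E)

/-- The gauge as a function on `ℝ≥0∞`. -/
noncomputable def gauge (γ : ℕ → ℝ) (r : ℝ≥0∞) : ℝ≥0∞ := ((h γ r.toNNReal : ℝ≥0) : ℝ≥0∞)

lemma mu_le_mkMetric (hγ : Good γ) : mu γ ≤ Measure.mkMetric (gauge γ) := by
  apply Measure.le_mkMetric _ _ 1 one_pos
  intro E hE
  have hE' : Metric.ediam E ≠ ⊤ := ne_top_of_le_ne_top ENNReal.one_ne_top hE
  unfold gauge
  rw [coe_h hγ]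
  exact mu_le_H E hE'

/-- Condition that makes the cylinders of infinitely many levels shorter than their gaps. -/
def Sparse (γ : ℕ → ℝ) : Prop := ∀ N : ℕ, ∃ s, N ≤ s ∧ 2 ^ s * 4 * γ s < 1

lemma Gam_tendsto (hγ : Good γ) : Tendsto (fun n => Gam γ 0 n) atTop (𝓝 0) := by
  have h1 : Tendsto (fun n : ℕ => (1 / 8 : ℝ) ^ n) atTop (𝓝 0) :=
    tendsto_pow_atTop_nhds_zero_of_lt_one (by norm_num) (by norm_num)
  apply squeeze_zero (fun n => (Gam_pos hγ 0 n).le) _ h1
  intro n
  unfold Gam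
  calc ∏ k ∈ Finset.range n, γ (0 + k) ≤ ∏ k ∈ Finset.range n, (1 / 8 : ℝ) :=
        Finset.prod_le_prod (fun k _ => (hγ _).1.le) (fun k _ => (hγ _).2)
    _ = (1 / 8) ^ n := by simp

lemma mkMetric_K_le (hγ : Good γ) (hs : Sparse γ) : Measure.mkMetric (gauge γ) (K γ) ≤ 1 := by
  classical
  choose s hsN hs1 using hs
  let t : ∀ n : ℕ, (Fin (s n + 1) → Bool) → Set ℝ := fun n w =>
    X γ 0 '' {ω | ∀ k : Fin (s n + 1), ω k = w k}
  have hdiam : ∀ n w, Metric.ediam (t n w) ≤ ENNReal.ofReal (2 ^ (s n + 1) * Gam γ 0 (s n + 1) * 2) := by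
    intro n w
    apply Metric.ediam_le
    rintro _ ⟨ω, hω, rfl⟩ _ ⟨ω', hω', rfl⟩
    rw [edist_dist, Real.dist_eq]
    apply ENNReal.ofReal_le_ofReal
    apply abs_X_sub_le hγ
    intro k hk
    have h1 := hω ⟨k, hk⟩
    have h2 := hω' ⟨k, hk⟩
    simp only at h1 h2
    rw [zero_add, h1, h2]
  have hlt : ∀ n, 2 ^ (s n + 1) * Gam γ 0 (s n + 1) * 2 < Gam γ 0 (s n) := by
    intro n
    rw [Gam_succ]
    have h1 := hs1 n
    have h2 := Gam_pos hγ 0 (s n)
    rw [zero_add]
    calc 2 ^ (s n + 1) * (Gam γ 0 (s n) * γ (s n)) * 2 = (2 ^ (s n) * 4 * γ (s n)) * Gam γ 0 (s n) := by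
          ring
      _ < 1 * Gam γ 0 (s n) := by
          apply mul_lt_mul_of_pos_right h1 h2
      _ = Gam γ 0 (s n) := one_mul _
  have htend : Tendsto (fun n => ENNReal.ofReal (Gam γ 0 (s n))) atTop (𝓝 0) := by
    have h1 : Tendsto s atTop atTop := tendsto_atTop_mono hsN tendsto_id
    have h2 := (Gam_tendsto hγ).comp h1
    have h3 := ENNReal.tendsto_ofReal h2
    rw [ENNReal.ofReal_zero] at h3
    exact h3
  have key := Measure.mkMetric_le_liminf_sum (K γ) (l := atTop)
    (fun n => ENNReal.ofReal (Gam γ 0 (s n))) htend t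
    (Eventually.of_forall fun n w => (hdiam n w).trans (ENNReal.ofReal_le_ofReal (hlt n).le))
    (Eventually.of_forall fun n => by
      rintro _ ⟨ω, rfl⟩
      rw [mem_iUnion]
      exact ⟨fun k => ω k, ω, fun k => rfl, rfl⟩) (gauge γ)
  refine key.trans ?_
  have hsum : ∀ n, ∑ w, gauge γ (Metric.ediam (t n w)) ≤ 1 := by
    intro n
    have h1 : ∀ w, gauge γ (Metric.ediam (t n w)) ≤ (2⁻¹ : ℝ≥0∞) ^ (s n + 1) := by
      intro w
      unfold gauge
      rw [coe_h hγ]
      apply H_le_of_lt hγ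
      have h2 := (hdiam n w)
      have h3 : (Metric.ediam (t n w)).toReal ≤ 2 ^ (s n + 1) * Gam γ 0 (s n + 1) * 2 := by
        apply ENNReal.toReal_le_of_le_ofReal _ h2
        have := Gam_pos hγ 0 (s n + 1)
        positivity
      exact lt_of_le_of_lt h3 (hlt n)
    calc ∑ w, gauge γ (Metric.ediam (t n w)) ≤ ∑ w : Fin (s n + 1) → Bool, (2⁻¹ : ℝ≥0∞) ^ (s n + 1) :=
          Finset.sum_le_sum fun w _ => h1 w
      _ = 1 := by
          rw [Finset.sum_const, Finset.card_univ, Fintype.card_fun, Fintype.card_bool,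
            Fintype.card_fin, nsmul_eq_mul]
          push_cast
          rw [← mul_pow, ENNReal.mul_inv_cancel (by norm_num) (by norm_num), one_pow]
  calc liminf (fun n => ∑ w, gauge γ (Metric.ediam (t n w))) atTop
      ≤ liminf (fun _ : ℕ => (1 : ℝ≥0∞)) atTop := liminf_le_liminf (Eventually.of_forall hsum)
    _ = 1 := liminf_const _

/-- The balanced measure is the `h`-Hausdorff measure restricted to `K`. -/
theorem mu_eq (hγ : Good γ) (hs : Sparse γ) :
    mu γ = (Measure.mkMetric (gauge γ)).restrict (K γ) := by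
  have := isProbabilityMeasure_mu hγ
  have hKm : MeasurableSet (K γ) := (isCompact_K hγ).measurableSet
  have hle : mu γ ≤ (Measure.mkMetric (gauge γ)).restrict (K γ) := by
    have h1 : mu γ = (mu γ).restrict (K γ) := by
      rw [Measure.restrict_eq_self_of_ae_mem]
      rw [ae_iff]
      exact mu_compl_K hγ
    rw [h1]
    exact Measure.restrict_mono le_rfl (mu_le_mkMetric hγ)
  have hK1 : Measure.mkMetric (gauge γ) (K γ) = 1 := by
    apply le_antisymm (mkMetric_K_le hγ hs)
    have h1 : mu γ (K γ) = 1 := by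
      rw [← prob_compl_eq_zero_iff hKm]; exact mu_compl_K hγ
    rw [← h1]
    exact mu_le_mkMetric hγ _
  have : IsProbabilityMeasure ((Measure.mkMetric (gauge γ)).restrict (K γ)) := by
    constructor
    rw [Measure.restrict_apply_univ, hK1]
  exact Measure.eq_of_le_of_isProbabilityMeasure hle

/-- Positive Hausdorff dimension if the parameters do not decay too fast. -/
theorem dimH_K_pos (hγ : Good γ) (hd : ∀ n : ℕ, (2⁻¹ : ℝ) ^ (5 * n) ≤ Gam γ 0 n) :
    ((1 / 5 : ℝ≥0) : ℝ≥0∞) ≤ dimH (K γ) := by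
  have := isProbabilityMeasure_mu hγ
  apply le_dimH_of_hausdorffMeasure_ne_zero
  have hle : mu γ ≤ Measure.hausdorffMeasure ((1 / 5 : ℝ≥0) : ℝ) := by
    apply Measure.le_hausdorffMeasure _ _ 1 one_pos
    intro E hE
    have hE' : Metric.ediam E ≠ ⊤ := ne_top_of_le_ne_top ENNReal.one_ne_top hE
    refine (mu_le_H E hE').trans ?_
    set d : ℝ := (Metric.ediam E).toReal with hd'
    have hed : Metric.ediam E = ENNReal.ofReal d := (ENNReal.ofReal_toReal hE').symm
    have hd0 : 0 ≤ d := ENNReal.toReal_nonneg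
    rcases hd0.eq_or_lt with h0 | h0
    · rw [← h0, H_zero hγ]; exact zero_le
    -- choose the level
    have hex : ∃ n, Gam γ 0 n ≤ d := by
      have := (Gam_tendsto hγ).eventually (gt_mem_nhds h0)
      obtain ⟨n, hn⟩ := this.exists
      exact ⟨n, hn.le⟩
    classical
    set n := Nat.find hex with hn
    have hn1 : Gam γ 0 n ≤ d := Nat.find_spec hex
    have hH : H γ d ≤ (2⁻¹ : ℝ≥0∞) ^ n := by
      rcases Nat.eq_zero_or_pos n with h1 | h1
      · rw [h1, pow_zero]; exact H_le_one hγ d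
      · have h2 : ¬ Gam γ 0 (n - 1) ≤ d := Nat.find_min hex (by omega)
        push Not at h2
        have h3 := H_le_of_lt hγ h2
        have h4 : n - 1 + 1 = n := by omega
        rwa [h4] at h3
    refine hH.trans ?_
    have h5 : ENNReal.ofReal ((2⁻¹ : ℝ) ^ (5 * n)) ≤ Metric.ediam E := by
      rw [hed]; exact ENNReal.ofReal_le_ofReal ((hd n).trans hn1)
    have h6 : (ENNReal.ofReal ((2⁻¹ : ℝ) ^ (5 * n))) ^ ((1 / 5 : ℝ≥0) : ℝ) ≤
        Metric.ediam E ^ ((1 / 5 : ℝ≥0) : ℝ) := ENNReal.rpow_le_rpow h5 (by positivity)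
    refine le_trans (le_of_eq ?_) h6
    rw [ENNReal.ofReal_pow (by norm_num), ENNReal.ofReal_inv_of_pos (by norm_num),
      ENNReal.ofReal_ofNat, ← ENNReal.rpow_natCast, ← ENNReal.rpow_natCast, ← ENNReal.rpow_mul]
    congr 1
    push_cast
    ring
  have hKm : MeasurableSet (K γ) := (isCompact_K hγ).measurableSet
  have h1 : mu γ (K γ) = 1 := by
    rw [← prob_compl_eq_zero_iff hKm]; exact mu_compl_K hγ
  have h2 := hle (K γ)
  rw [h1] at h2
  intro h3
  rw [h3] at h2
  exact absurd h2 (by norm_num)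

end Pool.Agent.Helper59.EqMeas
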