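import Pool.Agent.Helper59.EqMeas.Meas
import Pool.Agent.Helper59.EqMeas.Lower

/-!
Energy of the balanced measure and its minimality.
-/

open Filter Topology Set MeasureTheory
open scoped ENNReal NNReal

namespace Pool.Agent.Helper59.EqMeas

variable {γ : ℕ → ℝ}

/-- Normalising constants: `c m` is the leading coefficient of the `m`-fold iterate. -/
noncomputable def lc (γ : ℕ → ℝ) : ℕ → ℝ
  | 0 => 1
  | m + 1 => (lc γ m) ^ 2 / (2 * γ m)

/-- Monic version of the `m`-fold iterate. -/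
noncomputable def pol (γ : ℕ → ℝ) : ℕ → Polynomial ℝ
  | 0 => Polynomial.X
  | m + 1 => (pol γ m) ^ 2 - Polynomial.C ((1 - 2 * γ m) / (lc γ m) ^ 2)

lemma lc_pos (hγ : Good γ) (m : ℕ) : 0 < lc γ m := by
  induction m with
  | zero => simp [lc]
  | succ m ih =>
    have := (hγ m).1
    show 0 < (lc γ m) ^ 2 / (2 * γ m)
    positivity

lemma pol_monic_deg (m : ℕ) : (pol γ m).Monic ∧ (pol γ m).natDegree = 2 ^ m := by
  induction m with
  | zero => exact ⟨Polynomial.monic_X, by simp [pol]⟩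
  | succ m ih =>
    obtain ⟨h1, h2⟩ := ih
    have h3 : ((pol γ m) ^ 2).Monic := h1.pow 2
    have h4 : ((pol γ m) ^ 2).natDegree = 2 ^ (m + 1) := by
      rw [h1.natDegree_pow, h2]; ring
    constructor
    · show ((pol γ m) ^ 2 - Polynomial.C _).Monic
      apply h3.sub_of_left
      apply lt_of_le_of_lt Polynomial.degree_C_le
      rw [Polynomial.degree_eq_natDegree h3.ne_zero, h4]
      exact_mod_cast Nat.pos_of_ne_zero (by positivity)
    · show ((pol γ m) ^ 2 - Polynomial.C _).natDegree = _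
      rw [Polynomial.natDegree_sub_C, h4]

lemma lc_mul_eval (hγ : Good γ) (m : ℕ) (ω : ℕ → Bool) :
    lc γ m * (pol γ m).eval (X γ 0 ω) = X γ m ω := by
  induction m with
  | zero => simp [lc, pol]
  | succ m ih =>
    have h1 := X_sq hγ m ω
    have h2 := lc_pos hγ m
    have h3 := (hγ m).1
    show (lc γ m) ^ 2 / (2 * γ m) *
      ((pol γ m) ^ 2 - Polynomial.C ((1 - 2 * γ m) / (lc γ m) ^ 2)).eval (X γ 0 ω) = X γ (m + 1) ω
    rw [Polynomial.eval_sub, Polynomial.eval_pow, Polynomial.eval_C]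
    rw [← ih] at h1
    field_simp
    linarith [h1]

lemma log_lc_succ (hγ : Good γ) (m : ℕ) :
    Real.log (lc γ (m + 1)) = 2 * Real.log (lc γ m) - Real.log (2 * γ m) := by
  have h2 := lc_pos hγ m
  have h3 := (hγ m).1
  show Real.log ((lc γ m) ^ 2 / (2 * γ m)) = _
  rw [Real.log_div (by positivity) (by positivity), Real.log_pow]
  norm_num

/-- Energy at level `s`. -/
noncomputable def G (γ : ℕ → ℝ) (A : ℝ) (s : ℕ) : ℝ≥0∞ :=
  ∫⁻ ω, ∫⁻ ω', kap A (X γ s ω) (X γ s ω') ∂P ∂P

lemma abs_sub_le_two (hγ : Good γ) (s : ℕ) (ω ω' : ℕ → Bool) : |X γ s ω - X γ s ω'| ≤ 2 := by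
  calc |X γ s ω - X γ s ω'| ≤ |X γ s ω| + |X γ s ω'| := abs_sub _ _
    _ ≤ 1 + 1 := add_le_add (abs_X_le hγ _ _) (abs_X_le hγ _ _)
    _ = 2 := by norm_num

lemma kap_identity (hγ : Good γ) {A : ℝ} (hA : Real.log 2 ≤ A) (s : ℕ) (ω ω' : ℕ → Bool) :
    kap A (X γ s ω) (X γ s ω') + kap A (X γ s (flip s ω)) (X γ s ω') =
      kap A (X γ (s + 1) ω) (X γ (s + 1) ω') + ENNReal.ofReal (A - Real.log (2 * γ s)) := by
  have hu := X_sq hγ s ω
  have hv := X_sq hγ s ω'
  have hflip := X_flip hγ s ω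
  have hbound1 := abs_sub_le_two hγ s ω ω'
  have hbound2 := abs_sub_le_two hγ s (flip s ω) ω'
  have hbound3 := abs_sub_le_two hγ (s + 1) ω ω'
  rw [hflip] at hbound2 ⊢
  set u := X γ s ω
  set v := X γ s ω'
  set U := X γ (s + 1) ω
  set V := X γ (s + 1) ω'
  have hg := (hγ s).1
  have hg8 := (hγ s).2
  have hprod : (u - v) * (u + v) = 2 * γ s * (U - V) := by nlinarith
  have hlog2 : 0 ≤ Real.log 2 := Real.log_nonneg (by norm_num)
  have hlogg : Real.log (2 * γ s) ≤ 0 := Real.log_nonpos (by positivity) (by linarith)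
  by_cases hUV : U = V
  · rw [hUV, sub_self, mul_zero] at hprod
    have hR : kap A V V = ⊤ := by unfold kap; rw [if_pos rfl]
    rw [hUV, hR, top_add]
    rcases mul_eq_zero.1 hprod with h | h
    · have : u = v := by linarith
      have h1 : kap A u v = ⊤ := by unfold kap; rw [if_pos this]
      rw [h1, top_add]
    · have : -u = v := by linarith
      have h1 : kap A (-u) v = ⊤ := by unfold kap; rw [if_pos this]
      rw [h1, add_top]
  · have hUV' : U - V ≠ 0 := sub_ne_zero.2 hUV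
    have hprod0 : (u - v) * (u + v) ≠ 0 := by
      rw [hprod]; exact mul_ne_zero (by positivity) hUV'
    have h1 : u - v ≠ 0 := left_ne_zero_of_mul hprod0
    have h2 : u + v ≠ 0 := right_ne_zero_of_mul hprod0
    have h3 : u ≠ v := sub_ne_zero.1 h1
    have h4 : -u ≠ v := by
      intro h; apply h2; rw [← h]; ring
    have habs2 : |-u - v| = |u + v| := by
      rw [← abs_neg]; congr 1; ring
    rw [habs2] at hbound2
    unfold kap
    rw [if_neg h3, if_neg h4, if_neg hUV, Real.dist_eq, Real.dist_eq, Real.dist_eq, habs2]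
    have p1 : 0 < |u - v| := abs_pos.2 h1
    have p2 : 0 < |u + v| := abs_pos.2 h2
    have p3 : 0 < |U - V| := abs_pos.2 hUV'
    have l1 : Real.log |u - v| ≤ Real.log 2 := Real.log_le_log p1 hbound1
    have l2 : Real.log |u + v| ≤ Real.log 2 := Real.log_le_log p2 hbound2
    have l3 : Real.log |U - V| ≤ Real.log 2 := Real.log_le_log p3 hbound3
    rw [← ENNReal.ofReal_add (by linarith) (by linarith),
      ← ENNReal.ofReal_add (by linarith) (by linarith)]
    congr 1
    have h5 : Real.log |u - v| + Real.log |u + v| = Real.log (2 * γ s) + Real.log |U - V| := by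
      rw [← Real.log_mul p1.ne' p2.ne', ← abs_mul, hprod, abs_mul,
        abs_of_pos (by positivity : (0 : ℝ) < 2 * γ s), Real.log_mul (by positivity) p3.ne']
    linarith

lemma measurable_kapX (hγ : Good γ) (A : ℝ) (s : ℕ) :
    Measurable (fun q : (ℕ → Bool) × (ℕ → Bool) => kap A (X γ s q.1) (X γ s q.2)) :=
  (measurable_kap A).comp
    (((measurable_X hγ s).comp measurable_fst).prodMk ((measurable_X hγ s).comp measurable_snd))

lemma G_rec (hγ : Good γ) {A : ℝ} (hA : Real.log 2 ≤ A) (s : ℕ) :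
    2 * G γ A s = G γ A (s + 1) + ENNReal.ofReal (A - Real.log (2 * γ s)) := by
  set g : (ℕ → Bool) → ℝ≥0∞ := fun ω => ∫⁻ ω', kap A (X γ s ω) (X γ s ω') ∂P with hg
  have hgm : Measurable g := (measurable_kapX hγ A s).lintegral_prod_right'
  have h1 : G γ A s = ∫⁻ ω, g ω ∂P := rfl
  have h2 : ∫⁻ ω, g (flip s ω) ∂P = ∫⁻ ω, g ω ∂P := by
    rw [← lintegral_map hgm (measurable_flip s), map_flip]
  have h3 : 2 * G γ A s = ∫⁻ ω, (g ω + g (flip s ω)) ∂P := by
    rw [lintegral_add_left hgm, h2, ← h1, two_mul]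
  have hm1 : ∀ ω, Measurable fun ω' => kap A (X γ s ω) (X γ s ω') := fun ω =>
    (measurable_kapX hγ A s).comp (measurable_const.prodMk measurable_id)
  have hm2 : ∀ ω, Measurable fun ω' => kap A (X γ (s + 1) ω) (X γ (s + 1) ω') := fun ω =>
    (measurable_kapX hγ A (s + 1)).comp (measurable_const.prodMk measurable_id)
  have h4 : ∀ ω, g ω + g (flip s ω) =
      ∫⁻ ω', kap A (X γ (s + 1) ω) (X γ (s + 1) ω') ∂P + ENNReal.ofReal (A - Real.log (2 * γ s)) := by
    intro ω
    rw [hg]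
    simp only
    rw [← lintegral_add_left (hm1 ω)]
    simp only [kap_identity hγ hA s]
    rw [lintegral_add_left (hm2 ω), lintegral_const, measure_univ, mul_one]
  rw [h3]
  simp only [h4]
  rw [lintegral_add_right _ measurable_const, lintegral_const, measure_univ, mul_one]
  rfl

lemma log_lc_nonneg (hγ : Good γ) (m : ℕ) : 0 ≤ Real.log (lc γ m) := by
  induction m with
  | zero => simp [lc]
  | succ m ih =>
    rw [log_lc_succ hγ]
    have hg := (hγ m).1
    have hg8 := (hγ m).2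
    have hlogg : Real.log (2 * γ m) ≤ 0 := Real.log_nonpos (by positivity) (by linarith)
    linarith

lemma G_formula (hγ : Good γ) {A : ℝ} (hA : Real.log 2 ≤ A) (m : ℕ) :
    2 ^ m * G γ A 0 = G γ A m + ENNReal.ofReal ((2 ^ m - 1) * A + Real.log (lc γ m)) := by
  have hlog2 : 0 ≤ Real.log 2 := Real.log_nonneg (by norm_num)
  have hA0 : 0 ≤ A := hlog2.trans hA
  induction m with
  | zero => simp [lc]
  | succ m ih =>
    have hg := (hγ m).1
    have hg8 := (hγ m).2
    have hlogg : Real.log (2 * γ m) ≤ 0 := Real.log_nonpos (by positivity) (by linarith)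
    have h1 : (1 : ℝ) ≤ 2 ^ m := one_le_pow₀ (by norm_num)
    have h2 := log_lc_nonneg hγ m
    calc 2 ^ (m + 1) * G γ A 0 = 2 * (2 ^ m * G γ A 0) := by ring
      _ = 2 * G γ A m + 2 * ENNReal.ofReal ((2 ^ m - 1) * A + Real.log (lc γ m)) := by
          rw [ih, mul_add]
      _ = G γ A (m + 1) + (ENNReal.ofReal (A - Real.log (2 * γ m)) +
            ENNReal.ofReal (2 * ((2 ^ m - 1) * A + Real.log (lc γ m)))) := by
          rw [G_rec hγ hA, add_assoc, ENNReal.ofReal_mul (by norm_num), ENNReal.ofReal_ofNat]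
      _ = G γ A (m + 1) + ENNReal.ofReal ((2 ^ (m + 1) - 1) * A + Real.log (lc γ (m + 1))) := by
          rw [← ENNReal.ofReal_add (by linarith) (by nlinarith), log_lc_succ hγ]
          congr 2
          ring

/-- The cylinder of sequences that agree with `ω` on the digits `s, …, s + n - 1`. -/
def cyl (s n : ℕ) (ω : ℕ → Bool) : Set (ℕ → Bool) := {ω' | ∀ k, k < n → ω (s + k) = ω' (s + k)}

lemma measurableSet_cyl (s n : ℕ) (ω : ℕ → Bool) : MeasurableSet (cyl s n ω) := by
  have : cyl s n ω = ⋂ k ∈ Finset.range n, (fun ω' : ℕ → Bool => ω' (s + k)) ⁻¹' {ω (s + k)} := by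
    ext ω'
    simp only [cyl, mem_ofPred_eq, Finset.mem_range, mem_iInter, mem_preimage, mem_singleton_iff]
    constructor
    · intro h k hk; exact (h k hk).symm
    · intro h k hk; exact (h k hk).symm
  rw [this]
  apply Finset.measurableSet_biInter
  intro k _
  exact (measurable_pi_apply (s + k)) (measurableSet_singleton _)

lemma neg_log_Gam (hγ : Good γ) (s n : ℕ) :
    - Real.log (Gam γ s n) = ∑ k ∈ Finset.range n, (- Real.log (γ (s + k))) := by
  unfold Gam
  rw [Real.log_prod (fun k _ => (hγ (s + k)).1.ne'), Finset.sum_neg_distrib]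

lemma neg_log_pos (hγ : Good γ) (k : ℕ) : 0 < - Real.log (γ k) := by
  have h1 := (hγ k).1
  have h2 := (hγ k).2
  have := Real.log_neg h1 (by linarith)
  linarith

lemma kap_le (hγ : Good γ) {A : ℝ} (hA : 0 ≤ A) (m : ℕ) (ω ω' : ℕ → Bool) :
    kap A (X γ m ω) (X γ m ω') ≤ ENNReal.ofReal A +
      ∑' n : ℕ, (cyl m (n + 1) ω).indicator (fun _ => ENNReal.ofReal (- Real.log (γ (m + n)))) ω' := by
  classical
  by_cases hagree : ∀ k, ω (m + k) = ω' (m + k)
  · -- the right-hand side is infinite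
    have h1 : ∀ n : ℕ, (cyl m (n + 1) ω).indicator
        (fun _ => ENNReal.ofReal (- Real.log (γ (m + n)))) ω' =
        ENNReal.ofReal (- Real.log (γ (m + n))) := by
      intro n
      rw [Set.indicator_of_mem]
      intro k _
      exact hagree k
    have h2 : ∑' n : ℕ, (cyl m (n + 1) ω).indicator
        (fun _ => ENNReal.ofReal (- Real.log (γ (m + n)))) ω' = ⊤ := by
      have h3 : ∑' _ : ℕ, ENNReal.ofReal (Real.log 8) = ⊤ := by
        apply ENNReal.tsum_const_eq_top_of_ne_zero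
        rw [Ne, ENNReal.ofReal_eq_zero, not_le]
        exact Real.log_pos (by norm_num)
      rw [eq_top_iff, ← h3]
      apply ENNReal.tsum_le_tsum
      intro n
      rw [h1]
      apply ENNReal.ofReal_le_ofReal
      rw [← Real.log_inv]
      apply Real.log_le_log (by norm_num)
      have h4 := (hγ (m + n)).1
      have h5 := (hγ (m + n)).2
      rw [le_inv_comm₀ (by norm_num) h4]
      linarith
    rw [h2, add_top]
    exact le_top
  · push Not at hagree
    set N := Nat.find hagree with hN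
    have hN1 : ω (m + N) ≠ ω' (m + N) := Nat.find_spec hagree
    have hN2 : ∀ k, k < N → ω (m + k) = ω' (m + k) := by
      intro k hk
      by_contra h
      exact Nat.find_min hagree hk h
    have h1 := Gam_mul_le hγ N m hN2
    have h2 := one_le_abs_sub_of_ne hγ (m + N) hN1
    have h3 := Gam_pos hγ m N
    have h4 : Gam γ m N ≤ |X γ m ω - X γ m ω'| := by nlinarith
    have hne : X γ m ω ≠ X γ m ω' := by
      intro h
      rw [h, sub_self, abs_zero] at h4
      linarith
    unfold kap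
    rw [if_neg hne, Real.dist_eq]
    have h5 : A - Real.log |X γ m ω - X γ m ω'| ≤
        A + ∑ k ∈ Finset.range N, (- Real.log (γ (m + k))) := by
      rw [← neg_log_Gam hγ]
      have := Real.log_le_log h3 h4
      linarith
    have h6 : 0 ≤ ∑ k ∈ Finset.range N, (- Real.log (γ (m + k))) :=
      Finset.sum_nonneg fun k _ => (neg_log_pos hγ _).le
    refine (ENNReal.ofReal_le_ofReal h5).trans ?_
    rw [ENNReal.ofReal_add hA h6]
    gcongr
    rw [ENNReal.ofReal_sum_of_nonneg (fun k _ => (neg_log_pos hγ _).le)]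
    refine le_trans ?_ (ENNReal.sum_le_tsum (Finset.range N))
    apply Finset.sum_le_sum
    intro n hn
    rw [Finset.mem_range] at hn
    rw [Set.indicator_of_mem]
    intro k hk
    exact hN2 k (by omega)

lemma G_le (hγ : Good γ) {A : ℝ} (hA : 0 ≤ A) (m : ℕ) :
    G γ A m ≤ ENNReal.ofReal A +
      ∑' n : ℕ, ENNReal.ofReal (- Real.log (γ (m + n))) * (2⁻¹ : ℝ≥0∞) ^ (n + 1) := by
  have h1 : ∀ ω, ∫⁻ ω', kap A (X γ m ω) (X γ m ω') ∂P ≤ ENNReal.ofReal A +
      ∑' n : ℕ, ENNReal.ofReal (- Real.log (γ (m + n))) * (2⁻¹ : ℝ≥0∞) ^ (n + 1) := by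
    intro ω
    refine (lintegral_mono (kap_le hγ hA m ω)).trans ?_
    rw [lintegral_add_left measurable_const, lintegral_const, measure_univ, mul_one,
      lintegral_tsum (fun n => (measurable_const.indicator (measurableSet_cyl _ _ _)).aemeasurable)]
    apply le_of_eq
    congr 2
    funext n
    rw [lintegral_indicator_const (measurableSet_cyl _ _ _)]
    congr 1
    exact P_cyl m (n + 1) ω
  unfold G
  refine (lintegral_mono h1).trans ?_
  rw [lintegral_const, measure_univ, mul_one]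

/-- Growth condition on the parameters. -/
def Slow (γ : ℕ → ℝ) : Prop := ∀ k, - Real.log (γ k) ≤ 3 * (3 / 2 : ℝ) ^ k

lemma G_le' (hγ : Good γ) (hsl : Slow γ) {A : ℝ} (hA : 0 ≤ A) (m : ℕ) :
    G γ A m ≤ ENNReal.ofReal (A + 6 * (3 / 2 : ℝ) ^ m) := by
  refine (G_le hγ hA m).trans ?_
  rw [ENNReal.ofReal_add hA (by positivity)]
  gcongr
  calc ∑' n : ℕ, ENNReal.ofReal (- Real.log (γ (m + n))) * (2⁻¹ : ℝ≥0∞) ^ (n + 1)
      ≤ ∑' n : ℕ, ENNReal.ofReal (3 / 2 * (3 / 2 : ℝ) ^ m * (3 / 4) ^ n) := by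
        apply ENNReal.tsum_le_tsum
        intro n
        have e : (2⁻¹ : ℝ≥0∞) ^ (n + 1) = ENNReal.ofReal ((2⁻¹ : ℝ) ^ (n + 1)) := by
          rw [ENNReal.ofReal_pow (by norm_num), ENNReal.ofReal_inv_of_pos (by norm_num),
            ENNReal.ofReal_ofNat]
        rw [e, ← ENNReal.ofReal_mul (neg_log_pos hγ _).le]
        apply ENNReal.ofReal_le_ofReal
        calc - Real.log (γ (m + n)) * (2⁻¹ : ℝ) ^ (n + 1)
            ≤ (3 * (3 / 2 : ℝ) ^ (m + n)) * (2⁻¹ : ℝ) ^ (n + 1) :=
              mul_le_mul_of_nonneg_right (hsl (m + n)) (by positivity)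
          _ = 3 / 2 * (3 / 2 : ℝ) ^ m * (3 / 4) ^ n := by
              rw [pow_add, pow_succ]
              have : (3 / 4 : ℝ) ^ n = (3 / 2) ^ n * (2⁻¹) ^ n := by
                rw [← mul_pow]; norm_num
              rw [this]
              ring
    _ = ENNReal.ofReal (∑' n : ℕ, 3 / 2 * (3 / 2 : ℝ) ^ m * (3 / 4) ^ n) := by
        rw [ENNReal.ofReal_tsum_of_nonneg (fun n => by positivity)]
        exact (summable_geometric_of_lt_one (by norm_num) (by norm_num)).mul_left _
    _ = ENNReal.ofReal (6 * (3 / 2 : ℝ) ^ m) := by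
        rw [tsum_mul_left, tsum_geometric_of_lt_one (by norm_num) (by norm_num)]
        congr 1
        ring

/-- Energy of the balanced measure. -/
lemma energy_mu (hγ : Good γ) (A : ℝ) :
    ∫⁻ x, ∫⁻ y, kap A x y ∂(mu γ) ∂(mu γ) = G γ A 0 := by
  unfold mu G
  rw [lintegral_map _ (measurable_X hγ 0)]
  · congr 1
    funext ω
    rw [lintegral_map _ (measurable_X hγ 0)]
    exact (measurable_kap A).comp (measurable_const.prodMk measurable_id)
  · have := isProbabilityMeasure_mu hγ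
    unfold mu at this
    exact (measurable_kap A).lintegral_prod_right'

/-- Minimality of the balanced measure. -/
theorem energy_mu_le (hγ : Good γ) (hsl : Slow γ) {A : ℝ} (hA : Real.log 2 ≤ A)
    {ν : Measure ℝ} [IsProbabilityMeasure ν] (hν : ν (K γ)ᶜ = 0) :
    ∫⁻ x, ∫⁻ y, kap A x y ∂(mu γ) ∂(mu γ) ≤ ∫⁻ x, ∫⁻ y, kap A x y ∂ν ∂ν := by
  rw [energy_mu hγ]
  set I := ∫⁻ x, ∫⁻ y, kap A x y ∂ν ∂ν with hI
  have hlog2 : 0 ≤ Real.log 2 := Real.log_nonneg (by norm_num)
  have hA0 : 0 ≤ A := hlog2.trans hA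
  have hlow : ∀ m : ℕ, ENNReal.ofReal (A + Real.log (lc γ m) / ((2 ^ m : ℕ) : ℝ)) ≤ I := by
    intro m
    obtain ⟨h1, h2⟩ := pol_monic_deg (γ := γ) m
    apply energy_lower hν _ (by positivity) (pol γ m) h1 h2 (lc_pos hγ m)
    · rintro _ ⟨ω, rfl⟩
      rw [le_div_iff₀ (lc_pos hγ m), mul_comm]
      have h3 := lc_mul_eval hγ m ω
      have h4 := abs_X_le hγ m ω
      rw [← h3, abs_mul, abs_of_pos (lc_pos hγ m)] at h4
      exact h4
    · rintro _ ⟨ω, rfl⟩
      exact abs_X_le hγ 0 ω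
  have hb : ∀ m : ℕ, G γ A 0 ≤ ENNReal.ofReal (A * (1 / 2) ^ m + 6 * (3 / 4) ^ m) + I := by
    intro m
    have h1 := G_formula hγ hA m
    have h2 := G_le' hγ hsl hA0 m
    have h3 := hlow m
    have h4 := log_lc_nonneg hγ m
    have hpow : (0 : ℝ) < 2 ^ m := by positivity
    have h5 : (2 ^ m : ℝ≥0∞) * G γ A 0 ≤
        (2 ^ m : ℝ≥0∞) * (ENNReal.ofReal (A * (1 / 2) ^ m + 6 * (3 / 4) ^ m) + I) := by
      rw [h1, mul_add]
      apply add_le_add
      · refine h2.trans (le_of_eq ?_)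
        have e : (2 ^ m : ℝ≥0∞) = ENNReal.ofReal (2 ^ m) := by
          rw [ENNReal.ofReal_pow (by norm_num), ENNReal.ofReal_ofNat]
        rw [e, ← ENNReal.ofReal_mul (by positivity)]
        congr 1
        have e1 : (2 : ℝ) ^ m * (1 / 2) ^ m = 1 := by rw [← mul_pow]; norm_num
        have e2 : (2 : ℝ) ^ m * (3 / 4) ^ m = (3 / 2) ^ m := by rw [← mul_pow]; norm_num
        calc A + 6 * (3 / 2) ^ m = A * (2 ^ m * (1 / 2) ^ m) + 6 * (2 ^ m * (3 / 4) ^ m) := by
              rw [e1, e2]; ring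
          _ = 2 ^ m * (A * (1 / 2) ^ m + 6 * (3 / 4) ^ m) := by ring
      · have e : (2 ^ m : ℝ≥0∞) = ENNReal.ofReal (2 ^ m) := by
          rw [ENNReal.ofReal_pow (by norm_num), ENNReal.ofReal_ofNat]
        calc ENNReal.ofReal ((2 ^ m - 1) * A + Real.log (lc γ m))
            ≤ ENNReal.ofReal (2 ^ m * (A + Real.log (lc γ m) / ((2 ^ m : ℕ) : ℝ))) := by
              apply ENNReal.ofReal_le_ofReal
              push_cast
              rw [mul_add, mul_div_cancel₀ _ hpow.ne']
              linarith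
          _ = (2 ^ m : ℝ≥0∞) * ENNReal.ofReal (A + Real.log (lc γ m) / ((2 ^ m : ℕ) : ℝ)) := by
              rw [e, ← ENNReal.ofReal_mul (by positivity)]
          _ ≤ (2 ^ m : ℝ≥0∞) * I := by gcongr
    exact (ENNReal.mul_le_mul_iff_right (by positivity) (by finiteness)).1 h5
  have hlim : Tendsto (fun m : ℕ => ENNReal.ofReal (A * (1 / 2) ^ m + 6 * (3 / 4) ^ m) + I) atTop
      (𝓝 (0 + I)) := by
    apply Tendsto.add _ tendsto_const_nhds
    have h1 : Tendsto (fun m : ℕ => A * (1 / 2 : ℝ) ^ m + 6 * (3 / 4) ^ m) atTop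
        (𝓝 (A * 0 + 6 * 0)) := by
      apply Tendsto.add
      · exact (tendsto_pow_atTop_nhds_zero_of_lt_one (by norm_num) (by norm_num)).const_mul _
      · exact (tendsto_pow_atTop_nhds_zero_of_lt_one (by norm_num) (by norm_num)).const_mul _
    have h2 := ENNReal.tendsto_ofReal h1
    simpa using h2
  rw [zero_add] at hlim
  exact ge_of_tendsto' hlim hb

lemma energy_mu_lt_top (hγ : Good γ) (hsl : Slow γ) {A : ℝ} (hA : 0 ≤ A) :
    ∫⁻ x, ∫⁻ y, kap A x y ∂(mu γ) ∂(mu γ) < ⊤ := by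
  rw [energy_mu hγ]
  exact lt_of_le_of_lt (G_le' hγ hsl hA 0) ENNReal.ofReal_lt_top

/-- The diameter of `K` is at least `1`. -/
lemma one_le_diam (hγ : Good γ) : 1 ≤ Metric.diam (K γ) := by
  have h1 := one_le_abs_sub_of_ne hγ 0 (ω := fun _ => true) (ω' := fun _ => false) (by simp)
  rw [← Real.dist_eq] at h1
  refine h1.trans ?_
  exact Metric.dist_le_diam_of_mem (isCompact_K hγ).isBounded ⟨_, rfl⟩ ⟨_, rfl⟩

end Pool.Agent.Helper59.EqMeas
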